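import Mathlib

/-!
# Project BC, block EVAL: the mean along a ray

`rm φ` is the limit along an ultrafilter over `N` of the averages of `φ (k / N)` over `k < N ^ 2`. For
bounded Lipschitz functions `φ` on the real line it is invariant under translations, and it does not
change if a function which tends to zero at infinity is added.
-/

set_option autoImplicit false

namespace Pool.Agent.Helper34.BC

open Filter Topology Finset

/-! ### limits along an ultrafilter -/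

/-- the limit along a fixed nonprincipal ultrafilter -/
noncomputable def ulim (a : ℕ → ℝ) : ℝ := limUnder (hyperfilter ℕ : Filter ℕ) a

/-- bounded sequences -/
def Bsq (a : ℕ → ℝ) : Prop := ∃ C, ∀ n, |a n| ≤ C

theorem tendsto_ulim {a : ℕ → ℝ} (h : Bsq a) : Tendsto a (hyperfilter ℕ) (𝓝 (ulim a)) := by
  obtain ⟨C, hC⟩ := h
  apply tendsto_nhds_limUnder
  have h1 : ((hyperfilter ℕ).map a : Ultrafilter ℝ).toFilter ≤ 𝓟 (Set.Icc (-C) C) := by
    rw [le_principal_iff, Ultrafilter.coe_map, Filter.mem_map]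
    exact Filter.Eventually.of_forall fun n => abs_le.1 (hC n)
  obtain ⟨x, -, hx⟩ := isCompact_Icc.ultrafilter_le_nhds _ h1
  exact ⟨x, hx⟩

theorem ulim_eq {a : ℕ → ℝ} {x : ℝ} (h : Tendsto a (hyperfilter ℕ) (𝓝 x)) : ulim a = x :=
  h.limUnder_eq

theorem ulim_of_tendsto {a : ℕ → ℝ} {x : ℝ} (h : Tendsto a atTop (𝓝 x)) : ulim a = x :=
  ulim_eq (h.mono_left (by
    rw [← Nat.cofinite_eq_atTop]
    exact hyperfilter_le_cofinite))

theorem ulim_const (c : ℝ) : ulim (fun _ => c) = c := ulim_eq tendsto_const_nhds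

theorem Bsq.add {a b : ℕ → ℝ} (ha : Bsq a) (hb : Bsq b) : Bsq fun n => a n + b n := by
  obtain ⟨C, hC⟩ := ha
  obtain ⟨D, hD⟩ := hb
  exact ⟨C + D, fun n => (abs_add_le _ _).trans (add_le_add (hC n) (hD n))⟩

theorem Bsq.const_mul {a : ℕ → ℝ} (ha : Bsq a) (c : ℝ) : Bsq fun n => c * a n := by
  obtain ⟨C, hC⟩ := ha
  refine ⟨|c| * C, fun n => ?_⟩
  rw [abs_mul]
  exact mul_le_mul_of_nonneg_left (hC n) (abs_nonneg c)

theorem ulim_add {a b : ℕ → ℝ} (ha : Bsq a) (hb : Bsq b) :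
    ulim (fun n => a n + b n) = ulim a + ulim b :=
  ulim_eq ((tendsto_ulim ha).add (tendsto_ulim hb))

theorem ulim_const_mul {a : ℕ → ℝ} (ha : Bsq a) (c : ℝ) :
    ulim (fun n => c * a n) = c * ulim a := ulim_eq ((tendsto_ulim ha).const_mul c)

theorem abs_ulim_le {a : ℕ → ℝ} {C : ℝ} (h : ∀ n, |a n| ≤ C) : |ulim a| ≤ C :=
  le_of_tendsto (tendsto_ulim ⟨C, h⟩).abs (Eventually.of_forall h)

theorem ulim_congr {a b : ℕ → ℝ} (ha : Bsq a) (h : Tendsto (fun n => b n - a n) atTop (𝓝 0)) :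
    ulim b = ulim a := by
  have h1 : Tendsto (fun n => b n - a n) (hyperfilter ℕ) (𝓝 0) := h.mono_left (by
    rw [← Nat.cofinite_eq_atTop]
    exact hyperfilter_le_cofinite)
  apply ulim_eq
  have h2 := h1.add (tendsto_ulim ha)
  simpa using h2

/-! ### the mean -/

/-- the averages -/
noncomputable def cav (φ : ℝ → ℝ) (N : ℕ) : ℝ := (∑ k ∈ range (N ^ 2), φ (k / N)) / (N : ℝ) ^ 2

/-- the mean along the positive half line -/
noncomputable def rm (φ : ℝ → ℝ) : ℝ := ulim (cav φ)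

theorem abs_cav_le {φ : ℝ → ℝ} {C : ℝ} (h : ∀ t, |φ t| ≤ C) (N : ℕ) : |cav φ N| ≤ C := by
  have hC : 0 ≤ C := (abs_nonneg _).trans (h 0)
  unfold cav
  rcases Nat.eq_zero_or_pos N with rfl | hN
  · simpa using hC
  · have hN' : (0 : ℝ) < (N : ℝ) ^ 2 := by positivity
    rw [abs_div, abs_of_pos hN', div_le_iff₀ hN']
    refine (abs_sum_le_sum_abs _ _).trans ((sum_le_sum fun k _ => h _).trans ?_)
    rw [sum_const, card_range, nsmul_eq_mul]
    push_cast
    exact le_of_eq (mul_comm _ _)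

theorem bsq_cav {φ : ℝ → ℝ} {C : ℝ} (h : ∀ t, |φ t| ≤ C) : Bsq (cav φ) := ⟨C, abs_cav_le h⟩

theorem abs_rm_le {φ : ℝ → ℝ} {C : ℝ} (h : ∀ t, |φ t| ≤ C) : |rm φ| ≤ C :=
  abs_ulim_le (abs_cav_le h)

theorem rm_add {φ ψ : ℝ → ℝ} {C D : ℝ} (h : ∀ t, |φ t| ≤ C) (h' : ∀ t, |ψ t| ≤ D) :
    rm (fun t => φ t + ψ t) = rm φ + rm ψ := by
  unfold rm
  rw [← ulim_add (bsq_cav h) (bsq_cav h')]
  congr 1
  funext N
  unfold cav
  rw [sum_add_distrib, add_div]

theorem rm_const_mul {φ : ℝ → ℝ} {C : ℝ} (h : ∀ t, |φ t| ≤ C) (c : ℝ) :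
    rm (fun t => c * φ t) = c * rm φ := by
  unfold rm
  rw [← ulim_const_mul (bsq_cav h)]
  congr 1
  funext N
  unfold cav
  rw [← mul_sum, mul_div_assoc]

theorem rm_neg {φ : ℝ → ℝ} {C : ℝ} (h : ∀ t, |φ t| ≤ C) : rm (fun t => -φ t) = -rm φ := by
  have := rm_const_mul h (-1)
  simpa using this

theorem rm_sub {φ ψ : ℝ → ℝ} {C D : ℝ} (h : ∀ t, |φ t| ≤ C) (h' : ∀ t, |ψ t| ≤ D) :
    rm (fun t => φ t - ψ t) = rm φ - rm ψ := by
  have h1 := rm_add (ψ := fun t => -ψ t) h (D := D) (fun t => by rw [abs_neg]; exact h' t)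
  rw [rm_neg h'] at h1
  simpa [sub_eq_add_neg] using h1

theorem rm_const (c : ℝ) : rm (fun _ => c) = c := by
  apply ulim_of_tendsto
  refine tendsto_const_nhds.congr' ?_
  filter_upwards [eventually_ge_atTop 1] with N hN
  have hN' : ((N : ℝ) ^ 2) ≠ 0 := by positivity
  unfold cav
  rw [sum_const, card_range, nsmul_eq_mul]
  push_cast
  field_simp

theorem rm_zero : rm (fun _ => 0) = 0 := rm_const 0

theorem rm_sum {κ : Type*} (s : Finset κ) {φ : κ → ℝ → ℝ} {C : κ → ℝ}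
    (h : ∀ i ∈ s, ∀ t, |φ i t| ≤ C i) : rm (fun t => ∑ i ∈ s, φ i t) = ∑ i ∈ s, rm (φ i) := by
  classical
  induction s using Finset.induction_on with
  | empty => simp [rm_zero]
  | insert a s ha ih =>
    have h1 : ∀ i ∈ s, ∀ t, |φ i t| ≤ C i := fun i hi => h i (mem_insert_of_mem hi)
    simp only [sum_insert ha]
    rw [rm_add (C := C a) (D := ∑ i ∈ s, C i) (h a (mem_insert_self a s)) fun t =>
      (abs_sum_le_sum_abs _ _).trans (sum_le_sum fun i hi => h1 i hi t), ih h1]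

theorem abs_rm_sub_le {φ ψ : ℝ → ℝ} {C D K : ℝ} (h : ∀ t, |φ t| ≤ C) (h' : ∀ t, |ψ t| ≤ D)
    (hK : ∀ t, |φ t - ψ t| ≤ K) : |rm φ - rm ψ| ≤ K := by
  rw [← rm_sub h h']
  exact abs_rm_le hK

/-- changing a function by a function which tends to zero -/
theorem rm_congr {φ ψ : ℝ → ℝ} {C D : ℝ} (h : ∀ t, |φ t| ≤ C) (h' : ∀ t, |ψ t| ≤ D)
    (hlim : Tendsto (fun t => φ t - ψ t) atTop (𝓝 0)) : rm φ = rm ψ := by
  have hCD : 0 ≤ C + D := add_nonneg ((abs_nonneg _).trans (h 0)) ((abs_nonneg _).trans (h' 0))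
  refine ulim_congr (bsq_cav h') ?_
  rw [Metric.tendsto_atTop]
  intro ε hε
  rw [Metric.tendsto_atTop] at hlim
  obtain ⟨T, hT⟩ := hlim (ε / 2) (by positivity)
  obtain ⟨T', hT'⟩ : ∃ T' : ℝ, T' = max T 0 := ⟨_, rfl⟩
  have hT0 : 0 ≤ T' := hT' ▸ le_max_right _ _
  obtain ⟨M, hM⟩ := exists_nat_gt (2 * ((T' + 1) * (C + D)) / ε)
  refine ⟨M + 1, fun N hN => ?_⟩
  have hN1 : 1 ≤ N := by omega
  have hN1' : (1 : ℝ) ≤ N := by exact_mod_cast hN1
  have hN0 : (0 : ℝ) < N := by linarith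
  have hN2 : (0 : ℝ) < (N : ℝ) ^ 2 := by positivity
  rw [dist_zero_right, Real.norm_eq_abs]
  have e1 : cav φ N - cav ψ N =
      (∑ k ∈ range (N ^ 2), (φ (k / N) - ψ (k / N))) / (N : ℝ) ^ 2 := by
    unfold cav
    rw [sum_sub_distrib, sub_div]
  rw [e1, abs_div, abs_of_pos hN2, div_lt_iff₀ hN2]
  have h1 : ∀ k ∈ range (N ^ 2), |φ (k / N) - ψ (k / N)| ≤
      ε / 2 + if (k : ℝ) < T' * N then C + D else 0 := by
    intro k _
    split_ifs with hk
    · have := (abs_sub (φ (k / N)) (ψ (k / N))).trans (add_le_add (h _) (h' _))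
      linarith
    · have h2 : T ≤ (k : ℝ) / N := by
        rw [le_div_iff₀ hN0]
        refine le_trans ?_ (not_lt.1 hk)
        apply mul_le_mul_of_nonneg_right _ hN0.le
        rw [hT']
        exact le_max_left _ _
      have h3 := hT _ h2
      rw [dist_zero_right, Real.norm_eq_abs] at h3
      linarith
  refine lt_of_le_of_lt ((abs_sum_le_sum_abs _ _).trans (sum_le_sum h1)) ?_
  rw [sum_add_distrib, sum_const, card_range, nsmul_eq_mul, ← sum_filter, sum_const, nsmul_eq_mul]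
  have h4 : (((range (N ^ 2)).filter fun k : ℕ => (k : ℝ) < T' * N).card : ℝ) ≤ T' * N + 1 := by
    have h5 : ((range (N ^ 2)).filter fun k : ℕ => (k : ℝ) < T' * N) ⊆ range ⌈T' * N⌉₊ := by
      intro k hk
      rw [mem_filter] at hk
      rw [mem_range]
      exact Nat.lt_ceil.2 hk.2
    have h6 := card_le_card h5
    rw [card_range] at h6
    have h7 : (((range (N ^ 2)).filter fun k : ℕ => (k : ℝ) < T' * N).card : ℝ) ≤
        (⌈T' * N⌉₊ : ℝ) := by exact_mod_cast h6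
    exact h7.trans (Nat.ceil_lt_add_one (by positivity)).le
  have h8 : T' * N + 1 ≤ (T' + 1) * N := by nlinarith
  have h9 : (T' + 1) * (C + D) < ε / 2 * N := by
    have hMN : (M : ℝ) < N := by exact_mod_cast hN
    have h10 := hM.trans hMN
    rw [div_lt_iff₀ hε] at h10
    linarith
  have h11 : (((range (N ^ 2)).filter fun k : ℕ => (k : ℝ) < T' * N).card : ℝ) * (C + D) <
      ε / 2 * (N : ℝ) ^ 2 := by
    calc _ ≤ (T' + 1) * N * (C + D) := mul_le_mul_of_nonneg_right (h4.trans h8) hCD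
      _ = ((T' + 1) * (C + D)) * N := by ring
      _ < (ε / 2 * N) * N := mul_lt_mul_of_pos_right h9 hN0
      _ = _ := by ring
  push_cast
  linarith

/-- translation to the right -/
private theorem rm_shift_nonneg {φ : ℝ → ℝ} {C K : ℝ} (h : ∀ t, |φ t| ≤ C)
    (hK : ∀ s t, |φ s - φ t| ≤ K * |s - t|) {τ : ℝ} (hτ : 0 ≤ τ) :
    rm (fun t => φ (t + τ)) = rm φ := by
  have hC : 0 ≤ C := (abs_nonneg _).trans (h 0)
  have hK0 : 0 ≤ K := by
    have := hK 1 0
    have h2 := (abs_nonneg _).trans this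
    simpa using h2
  refine ulim_congr (bsq_cav h) ?_
  rw [Metric.tendsto_atTop]
  intro ε hε
  obtain ⟨M, hM⟩ := exists_nat_gt ((K + 2 * τ * C) / ε)
  refine ⟨M + 1, fun N hN => ?_⟩
  have hN1 : 1 ≤ N := by omega
  have hN0 : (0 : ℝ) < N := by exact_mod_cast hN1
  have hN2 : (0 : ℝ) < (N : ℝ) ^ 2 := by positivity
  obtain ⟨m, hm⟩ : ∃ m : ℕ, m = ⌊τ * N⌋₊ := ⟨_, rfl⟩
  have hm1 : (m : ℝ) ≤ τ * N := by
    rw [hm]
    exact Nat.floor_le (by positivity)
  have hm2 : τ * N < m + 1 := by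
    rw [hm]
    exact Nat.lt_floor_add_one _
  rw [dist_zero_right, Real.norm_eq_abs]
  -- first step: approximate the shift
  have h1 : ∀ k : ℕ, |φ ((k : ℝ) / N + τ) - φ (((k + m : ℕ) : ℝ) / N)| ≤ K / N := by
    intro k
    refine (hK _ _).trans ?_
    have e1 : (k : ℝ) / N + τ - ((k + m : ℕ) : ℝ) / N = (τ * N - m) / N := by
      push_cast
      field_simp
      ring
    rw [e1, abs_div, abs_of_pos hN0, abs_of_nonneg (by linarith), ← mul_div_assoc]
    apply div_le_div_of_nonneg_right _ hN0.le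
    nlinarith
  -- second step: telescoping
  have h2 : |∑ k ∈ range (N ^ 2), φ (((k + m : ℕ) : ℝ) / N) - ∑ k ∈ range (N ^ 2), φ ((k : ℝ) / N)| ≤
      2 * m * C := by
    have e2 : ∑ k ∈ range (N ^ 2), φ (((k + m : ℕ) : ℝ) / N) - ∑ k ∈ range (N ^ 2), φ ((k : ℝ) / N) =
        ∑ k ∈ range m, φ (((N ^ 2 + k : ℕ) : ℝ) / N) - ∑ k ∈ range m, φ ((k : ℝ) / N) := by
      have e3 := sum_range_add (fun k : ℕ => φ ((k : ℝ) / N)) m (N ^ 2)
      have e4 := sum_range_add (fun k : ℕ => φ ((k : ℝ) / N)) (N ^ 2) m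
      rw [add_comm m (N ^ 2)] at e3
      have e5 : ∑ k ∈ range (N ^ 2), φ (((k + m : ℕ) : ℝ) / N) =
          ∑ x ∈ range (N ^ 2), φ (((m + x : ℕ) : ℝ) / N) :=
        sum_congr rfl fun k _ => by rw [add_comm k m]
      rw [e5]
      linarith
    rw [e2]
    have hb : ∀ g : ℕ → ℝ, (∀ k, |g k| ≤ C) → |∑ k ∈ range m, g k| ≤ m * C := by
      intro g hg
      refine (abs_sum_le_sum_abs _ _).trans ((sum_le_sum fun k _ => hg k).trans ?_)
      rw [sum_const, card_range, nsmul_eq_mul]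
    have h3 := hb (fun k => φ (((N ^ 2 + k : ℕ) : ℝ) / N)) fun k => h _
    have h4 := hb (fun k => φ ((k : ℝ) / N)) fun k => h _
    refine (abs_sub _ _).trans ?_
    linarith
  have h3 : |∑ k ∈ range (N ^ 2), φ ((k : ℝ) / N + τ) -
      ∑ k ∈ range (N ^ 2), φ (((k + m : ℕ) : ℝ) / N)| ≤ (N : ℝ) ^ 2 * (K / N) := by
    rw [← sum_sub_distrib]
    refine (abs_sum_le_sum_abs _ _).trans ((sum_le_sum fun k _ => h1 k).trans ?_)
    rw [sum_const, card_range, nsmul_eq_mul]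
    push_cast
    exact le_rfl
  have e6 : cav (fun t => φ (t + τ)) N - cav φ N =
      ((∑ k ∈ range (N ^ 2), φ ((k : ℝ) / N + τ) -
        ∑ k ∈ range (N ^ 2), φ (((k + m : ℕ) : ℝ) / N)) +
      (∑ k ∈ range (N ^ 2), φ (((k + m : ℕ) : ℝ) / N) - ∑ k ∈ range (N ^ 2), φ ((k : ℝ) / N))) /
        (N : ℝ) ^ 2 := by
    unfold cav
    ring
  rw [e6, abs_div, abs_of_pos hN2, div_lt_iff₀ hN2]
  refine lt_of_le_of_lt ((abs_add_le _ _).trans (add_le_add h3 h2)) ?_
  have h5 : (K + 2 * τ * C) < ε * N := by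
    have hMN : (M : ℝ) < N := by exact_mod_cast hN
    have h10 := hM.trans hMN
    rw [div_lt_iff₀ hε] at h10
    linarith
  have h6 : (N : ℝ) ^ 2 * (K / N) = K * N := by
    field_simp
  have h7 : 2 * (m : ℝ) * C ≤ 2 * τ * C * N := by nlinarith [mul_le_mul_of_nonneg_right hm1 hC]
  rw [h6]
  nlinarith

/-- translations -/
theorem rm_shift {φ : ℝ → ℝ} {C K : ℝ} (h : ∀ t, |φ t| ≤ C)
    (hK : ∀ s t, |φ s - φ t| ≤ K * |s - t|) (τ : ℝ) : rm (fun t => φ (t + τ)) = rm φ := by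
  rcases le_or_gt 0 τ with hτ | hτ
  · exact rm_shift_nonneg h hK hτ
  · have h1 := rm_shift_nonneg (φ := fun t => φ (t + τ)) (C := C) (K := K) (fun t => h _)
      (fun s t => by
        have := hK (s + τ) (t + τ)
        rwa [add_sub_add_right_eq_sub] at this) (τ := -τ) (by linarith)
    rw [← h1]
    congr 1
    funext t
    rw [neg_add_cancel_right]

end Pool.Agent.Helper34.BC
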