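import Pool.Agent.Helper11.BC.Defs
import Pool.Agent.Helper34.BC.Mean

/-!
# Project BC, block EVAL: the extension to boundary points

The value of a function on lists of frames at a list with boundary points is an iterated mean.
-/

open Filter Topology Finset
open scoped MatrixGroups UpperHalfPlane

namespace Pool.Agent.Helper34.BC

open Pool.Agent.Helper11.BC

/-! ### The iterated mean -/

/-- The iterated mean of a function on lists of frames. -/
noncomputable def ev : List GP → (List G → ℝ) → ℝ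
  | [], φ => φ []
  | GP.int g :: X, φ => ev X fun Z => φ (g :: Z)
  | GP.bdp g :: X, φ => rm fun t => ev X fun Z => φ (g * (vert t).toSL2R :: Z)

theorem ev_nil (φ : List G → ℝ) : ev [] φ = φ [] := rfl

theorem ev_cons_int (g : G) (X : List GP) (φ : List G → ℝ) :
    ev (GP.int g :: X) φ = ev X fun Z => φ (g :: Z) := rfl

theorem ev_cons_bdp (g : G) (X : List GP) (φ : List G → ℝ) :
    ev (GP.bdp g :: X) φ = rm fun t => ev X fun Z => φ (g * (vert t).toSL2R :: Z) := rfl

theorem ev_congr {X : List GP} {φ ψ : List G → ℝ}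
    (h : ∀ Z : List G, Z.length = X.length → φ Z = ψ Z) : ev X φ = ev X ψ := by
  induction X generalizing φ ψ with
  | nil => exact h [] rfl
  | cons x X ih =>
    cases x with
    | int g => exact ih fun Z hZ => h _ (by simp [hZ])
    | bdp g =>
      rw [ev_cons_bdp, ev_cons_bdp]
      congr 1
      funext t
      exact ih fun Z hZ => h _ (by simp [hZ])

theorem abs_ev_le {X : List GP} {φ : List G → ℝ} {B : ℝ}
    (h : ∀ Z : List G, Z.length = X.length → |φ Z| ≤ B) : |ev X φ| ≤ B := by
  induction X generalizing φ with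
  | nil => exact h [] rfl
  | cons x X ih =>
    cases x with
    | int g => exact ih fun Z hZ => h _ (by simp [hZ])
    | bdp g =>
      rw [ev_cons_bdp]
      exact abs_rm_le fun t => ih fun Z hZ => h _ (by simp [hZ])

theorem ev_add {X : List GP} {φ ψ : List G → ℝ} {B D : ℝ}
    (h : ∀ Z : List G, Z.length = X.length → |φ Z| ≤ B)
    (h' : ∀ Z : List G, Z.length = X.length → |ψ Z| ≤ D) :
    ev X (fun Z => φ Z + ψ Z) = ev X φ + ev X ψ := by
  induction X generalizing φ ψ with
  | nil => rfl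
  | cons x X ih =>
    cases x with
    | int g => exact ih (fun Z hZ => h _ (by simp [hZ])) (fun Z hZ => h' _ (by simp [hZ]))
    | bdp g =>
      rw [ev_cons_bdp, ev_cons_bdp, ev_cons_bdp]
      rw [← rm_add (C := B) (D := D)
        (fun t => abs_ev_le fun Z hZ => h _ (by simp [hZ]))
        (fun t => abs_ev_le fun Z hZ => h' _ (by simp [hZ]))]
      congr 1
      funext t
      exact ih (fun Z hZ => h _ (by simp [hZ])) (fun Z hZ => h' _ (by simp [hZ]))

theorem ev_const_mul {X : List GP} {φ : List G → ℝ} {B : ℝ}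
    (h : ∀ Z : List G, Z.length = X.length → |φ Z| ≤ B) (c : ℝ) :
    ev X (fun Z => c * φ Z) = c * ev X φ := by
  induction X generalizing φ with
  | nil => rfl
  | cons x X ih =>
    cases x with
    | int g => exact ih (fun Z hZ => h _ (by simp [hZ]))
    | bdp g =>
      rw [ev_cons_bdp, ev_cons_bdp]
      rw [← rm_const_mul (C := B) (fun t => abs_ev_le fun Z hZ => h _ (by simp [hZ]))]
      congr 1
      funext t
      exact ih (fun Z hZ => h _ (by simp [hZ]))

theorem ev_sub {X : List GP} {φ ψ : List G → ℝ} {B D : ℝ}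
    (h : ∀ Z : List G, Z.length = X.length → |φ Z| ≤ B)
    (h' : ∀ Z : List G, Z.length = X.length → |ψ Z| ≤ D) :
    ev X (fun Z => φ Z - ψ Z) = ev X φ - ev X ψ := by
  have h1 := ev_add (ψ := fun Z => (-1 : ℝ) * ψ Z) h (D := D) (fun Z hZ => by
    rw [abs_mul, abs_neg, abs_one, one_mul]
    exact h' Z hZ)
  rw [ev_const_mul h'] at h1
  rw [sub_eq_add_neg, ← neg_one_mul, ← h1]
  refine ev_congr fun Z _ => ?_
  ring

theorem ev_zero (X : List GP) : ev X (fun _ => 0) = 0 := by
  have h := abs_ev_le (X := X) (φ := fun _ => (0 : ℝ)) (B := 0) (fun Z _ => by simp)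
  exact abs_eq_zero.1 (le_antisymm h (abs_nonneg _))

theorem ev_const (X : List GP) (c : ℝ) : ev X (fun _ => c) = c := by
  induction X with
  | nil => rfl
  | cons x X ih =>
    cases x with
    | int g => exact ih
    | bdp g =>
      rw [ev_cons_bdp]
      simp only [ih]
      exact rm_const c

theorem ev_sum {X : List GP} {κ : Type*} (s : Finset κ) {φ : κ → List G → ℝ} {B : κ → ℝ}
    (h : ∀ i ∈ s, ∀ Z : List G, Z.length = X.length → |φ i Z| ≤ B i) :
    ev X (fun Z => ∑ i ∈ s, φ i Z) = ∑ i ∈ s, ev X (φ i) := by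
  classical
  induction s using Finset.induction_on with
  | empty => simp [ev_zero]
  | insert a s ha ih =>
    have h1 : ∀ i ∈ s, ∀ Z : List G, Z.length = X.length → |φ i Z| ≤ B i :=
      fun i hi => h i (mem_insert_of_mem hi)
    rw [sum_insert ha, ← ih h1, ← ev_add (B := B a) (D := ∑ i ∈ s, B i)
      (h a (mem_insert_self a s))
      (fun Z hZ => (abs_sum_le_sum_abs _ _).trans (sum_le_sum fun i hi => h1 i hi Z hZ))]
    refine ev_congr fun Z _ => ?_
    rw [sum_insert ha]

/-- Faces. -/
theorem ev_eraseIdx (X : List GP) (i : ℕ) (φ : List G → ℝ) :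
    ev X (fun Z => φ (Z.eraseIdx i)) = ev (X.eraseIdx i) φ := by
  induction X generalizing i φ with
  | nil => simp [ev_nil]
  | cons x X ih =>
    cases i with
    | zero =>
      cases x with
      | int g => simp [ev_cons_int]
      | bdp g =>
        rw [ev_cons_bdp]
        simp [rm_const]
    | succ i =>
      cases x with
      | int g =>
        rw [ev_cons_int, List.eraseIdx_cons_succ, ev_cons_int]
        simp only [List.eraseIdx_cons_succ]
        exact ih i fun Z => φ (g :: Z)
      | bdp g =>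
        rw [ev_cons_bdp, List.eraseIdx_cons_succ, ev_cons_bdp]
        simp only [List.eraseIdx_cons_succ]
        congr 1
        funext t
        exact ih i fun Z => φ (g * (vert t).toSL2R :: Z)

/-- Translation by an element of the group. -/
theorem ev_map (h : G) (X : List GP) (φ : List G → ℝ) :
    ev (X.map (h • ·)) φ = ev X fun Z => φ (Z.map (h * ·)) := by
  induction X generalizing φ with
  | nil => simp [ev_nil]
  | cons x X ih =>
    cases x with
    | int g =>
      rw [List.map_cons, smul_int, ev_cons_int, ih, ev_cons_int]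
      simp only [List.map_cons]
    | bdp g =>
      rw [List.map_cons, smul_bdp, ev_cons_bdp, ev_cons_bdp]
      congr 1
      funext t
      rw [ih]
      simp only [List.map_cons, mul_assoc]

/-- Frames of interior points. -/
theorem ev_map_int (W : List G) (φ : List G → ℝ) : ev (W.map GP.int) φ = φ W := by
  induction W generalizing φ with
  | nil => rfl
  | cons g W ih => rw [List.map_cons, ev_cons_int, ih]

theorem ev_sub_int_le {l₁ l₂ : List GP} {g h : G} {φ : List G → ℝ} {B D : ℝ}
    (hB : ∀ Z : List G, Z.length = (l₁ ++ GP.int g :: l₂).length → |φ Z| ≤ B)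
    (hD : ∀ k₁ k₂ : List G, k₁.length = l₁.length → k₂.length = l₂.length →
      |φ (k₁ ++ g :: k₂) - φ (k₁ ++ h :: k₂)| ≤ D) :
    |ev (l₁ ++ GP.int g :: l₂) φ - ev (l₁ ++ GP.int h :: l₂) φ| ≤ D := by
  induction l₁ generalizing φ with
  | nil =>
    rw [List.nil_append, List.nil_append, ev_cons_int, ev_cons_int, ← ev_sub (B := B) (D := B)]
    · exact abs_ev_le fun Z hZ => hD [] Z rfl hZ
    · exact fun Z hZ => hB _ (by simp [hZ])
    · exact fun Z hZ => hB _ (by simp [hZ])
  | cons x l₁ ih =>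
    cases x with
    | int g' =>
      rw [List.cons_append, List.cons_append, ev_cons_int, ev_cons_int]
      refine ih (fun Z hZ => hB _ (by simp [hZ])) fun k₁ k₂ h₁ h₂ => ?_
      exact hD (g' :: k₁) k₂ (by simp [h₁]) h₂
    | bdp g' =>
      rw [List.cons_append, List.cons_append, ev_cons_bdp, ev_cons_bdp]
      refine abs_rm_sub_le (C := B) (D := B) (fun t => ?_) (fun t => ?_) (fun t => ?_)
      · exact abs_ev_le fun Z hZ => hB _ (by simp [hZ])
      · exact abs_ev_le fun Z hZ => hB _ (by simp [hZ])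
      · refine ih (fun Z hZ => hB _ (by simp [hZ])) fun k₁ k₂ h₁ h₂ => ?_
        exact hD (g' * (vert t).toSL2R :: k₁) k₂ (by simp [h₁]) h₂

/-! ### The frames of an ideal point -/

theorem pos_mul_vert (g : G) (t : ℝ) : pos (g * (vert t).toSL2R) = g • vert t := by
  rw [pos, mul_smul, UpperHalfPlane.toSL2R_smul_I]

theorem dist_vert (s t : ℝ) : dist (vert s) (vert t) = |s - t| := by
  rw [UpperHalfPlane.dist_of_re_eq (by rfl)]
  simp [vert, UpperHalfPlane.im, Real.dist_eq]

theorem dist_le_of_im_eq {z w : ℍ} (h : z.im = w.im) : dist z w ≤ |z.re - w.re| / w.im := by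
  have h1 := UpperHalfPlane.sinh_half_dist z w
  have h2 : dist z w / 2 ≤ Real.sinh (dist z w / 2) :=
    Real.self_le_sinh_iff.2 (by positivity)
  rw [h1, h, Real.sqrt_mul_self w.im_pos.le] at h2
  have h3 : dist (z : ℂ) w = |z.re - w.re| := by
    rw [Complex.dist_eq]
    have : (z : ℂ) - w = ((z.re - w.re : ℝ) : ℂ) := by
      apply Complex.ext
      · simp
      · simp [h]
    rw [this, Complex.norm_real, Real.norm_eq_abs]
  rw [h3] at h2
  have h4 : |z.re - w.re| / (2 * w.im) = |z.re - w.re| / w.im / 2 := by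
    rw [div_div, mul_comm]
  rw [h4] at h2
  linarith

theorem dist_par_vert_le {p : G} (hp : p 1 0 = 0) (t : ℝ) :
    dist (p • vert t) (vert (t + 2 * Real.log |p 0 0|)) ≤
      |p 0 1| / |p 0 0| * Real.exp (-t) := by
  have hdet : p 0 0 * p 1 1 = 1 := by
    have := p.det_coe
    rw [Matrix.det_fin_two, hp] at this
    linarith
  have hx : p 0 0 ≠ 0 := left_ne_zero_of_mul_eq_one hdet
  have hw : p 1 1 = (p 0 0)⁻¹ := eq_inv_of_mul_eq_one_right hdet
  have hexp : Real.exp (t + 2 * Real.log |p 0 0|) = p 0 0 ^ 2 * Real.exp t := by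
    rw [Real.exp_add, two_mul, Real.exp_add, Real.exp_log (abs_pos.2 hx), abs_mul_abs_self]
    ring
  have hsm : ((p • vert t : ℍ) : ℂ) =
      ⟨p 0 0 * p 0 1, p 0 0 ^ 2 * Real.exp t⟩ := by
    rw [UpperHalfPlane.coe_specialLinearGroup_apply]
    have hv : ((vert t : ℍ) : ℂ) = ⟨0, Real.exp t⟩ := rfl
    rw [hv]
    simp only [hp, hw]
    apply Complex.ext
    · simp
      field_simp
    · simp
      field_simp
  have him : (p • vert t).im = (vert (t + 2 * Real.log |p 0 0|)).im := by
    rw [← UpperHalfPlane.coe_im, hsm]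
    show _ = Real.exp (t + 2 * Real.log |p 0 0|)
    rw [hexp]
  refine (dist_le_of_im_eq him).trans (le_of_eq ?_)
  have h1 : (p • vert t).re = p 0 0 * p 0 1 := by rw [← UpperHalfPlane.coe_re, hsm]
  have h2 : (vert (t + 2 * Real.log |p 0 0|)).re = 0 := rfl
  have h3 : (vert (t + 2 * Real.log |p 0 0|)).im = p 0 0 ^ 2 * Real.exp t := by
    show Real.exp (t + 2 * Real.log |p 0 0|) = _
    rw [hexp]
  rw [h1, h2, h3, sub_zero, abs_mul, Real.exp_neg]
  have hx' : 0 < |p 0 0| := abs_pos.2 hx
  have he := Real.exp_pos t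
  rw [← sq_abs (p 0 0)]
  field_simp

/-- The mean does not depend on the frame of the ideal point. -/
theorem rm_par {g p : G} (hp : p 1 0 = 0) {u : G → ℝ} {B D : ℝ} (hB : ∀ z, |u z| ≤ B)
    (hD : ∀ z w, |u z - u w| ≤ D * dist (pos z) (pos w)) :
    rm (fun t => u (g * p * (vert t).toSL2R)) = rm (fun t => u (g * (vert t).toSL2R)) := by
  have hD' : ∀ z w, |u z - u w| ≤ |D| * dist (pos z) (pos w) := fun z w =>
    (hD z w).trans (mul_le_mul_of_nonneg_right (le_abs_self D) dist_nonneg)
  rw [← rm_shift (φ := fun t => u (g * (vert t).toSL2R)) (C := B) (K := |D|) (fun t => hB _)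
    (fun s t => by
      refine (hD' _ _).trans (le_of_eq ?_)
      rw [pos_mul_vert, pos_mul_vert, dist_smul, dist_vert]) (2 * Real.log |p 0 0|)]
  refine rm_congr (C := B) (D := B) (fun t => hB _) (fun t => hB _) ?_
  have hlim : Tendsto (fun t : ℝ => |D| * (|p 0 1| / |p 0 0| * Real.exp (-t))) atTop (𝓝 0) := by
    have h1 : Tendsto (fun t : ℝ => Real.exp (-t)) atTop (𝓝 0) :=
      Real.tendsto_exp_neg_atTop_nhds_zero
    have h2 := (h1.const_mul (|p 0 1| / |p 0 0|)).const_mul |D|
    simpa using h2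
  refine squeeze_zero_norm (fun t => ?_) hlim
  rw [Real.norm_eq_abs]
  refine (hD' _ _).trans (mul_le_mul_of_nonneg_left ?_ (abs_nonneg D))
  rw [pos_mul_vert, pos_mul_vert, mul_smul, dist_smul]
  exact dist_par_vert_le hp t

theorem ev_par {l₁ l₂ : List GP} {g p : G} (hp : p 1 0 = 0) {φ : List G → ℝ} {B D : ℝ}
    (hB : ∀ Z : List G, Z.length = (l₁ ++ GP.bdp g :: l₂).length → |φ Z| ≤ B)
    (hD : ∀ (k₁ k₂ : List G) (z w : G), k₁.length = l₁.length → k₂.length = l₂.length →
      |φ (k₁ ++ z :: k₂) - φ (k₁ ++ w :: k₂)| ≤ D * dist (pos z) (pos w)) :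
    ev (l₁ ++ GP.bdp (g * p) :: l₂) φ = ev (l₁ ++ GP.bdp g :: l₂) φ := by
  induction l₁ generalizing φ with
  | nil =>
    rw [List.nil_append, List.nil_append, ev_cons_bdp, ev_cons_bdp]
    refine rm_par (u := fun z => ev l₂ fun Z => φ (z :: Z)) (B := B) (D := D) hp (fun z => ?_)
      (fun z w => ?_)
    · exact abs_ev_le fun Z hZ => hB _ (by simp [hZ])
    · show |ev l₂ (fun Z => φ (z :: Z)) - ev l₂ (fun Z => φ (w :: Z))| ≤ _
      rw [← ev_sub (B := B) (D := B)]
      · exact abs_ev_le fun Z hZ => hD [] Z z w rfl hZ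
      · exact fun Z hZ => hB _ (by simp [hZ])
      · exact fun Z hZ => hB _ (by simp [hZ])
  | cons x l₁ ih =>
    cases x with
    | int g' =>
      rw [List.cons_append, List.cons_append, ev_cons_int, ev_cons_int]
      refine ih (fun Z hZ => hB _ (by simp [hZ])) fun k₁ k₂ z w h₁ h₂ => ?_
      exact hD (g' :: k₁) k₂ z w (by simp [h₁]) h₂
    | bdp g' =>
      rw [List.cons_append, List.cons_append, ev_cons_bdp, ev_cons_bdp]
      congr 1
      funext t
      refine ih (fun Z hZ => hB _ (by simp [hZ])) fun k₁ k₂ z w h₁ h₂ => ?_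
      exact hD (g' * (vert t).toSL2R :: k₁) k₂ z w (by simp [h₁]) h₂

/-- The alternating sum over the faces. -/
theorem ev_dl {X : List GP} {n : ℕ} (hX : X.length = n + 1) {φ : List G → ℝ} {B : ℝ}
    (hB : ∀ Z : List G, Z.length = n → |φ Z| ≤ B) :
    dl (fun Y => ev Y φ) X = ev X (dl φ) := by
  have h1 : ev X (dl φ) = ev X fun Z =>
      ∑ i ∈ range (n + 1), (-1 : ℝ) ^ i * φ (Z.eraseIdx i) := by
    refine ev_congr fun Z hZ => ?_
    rw [dl, hZ, hX]
    rfl
  have hlen : ∀ Z : List G, Z.length = X.length → ∀ i ∈ range (n + 1),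
      (Z.eraseIdx i).length = n := by
    intro Z hZ i hi
    rw [List.length_eraseIdx_of_lt (by rw [hZ, hX]; exact mem_range.1 hi), hZ, hX]
    rfl
  rw [h1, ev_sum (X := X) (range (n + 1))
    (φ := fun (i : ℕ) (Z : List G) => (-1 : ℝ) ^ i * φ (Z.eraseIdx i)) (B := fun _ => B), dl, hX]
  · refine sum_congr rfl fun i hi => ?_
    rw [ev_const_mul (φ := fun Z => φ (Z.eraseIdx i)) (B := B)
      (fun Z hZ => hB _ (hlen Z hZ i hi)), ev_eraseIdx]
    rfl
  · intro i hi Z hZ
    rw [abs_mul, abs_pow, abs_neg, abs_one, one_pow, one_mul]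
    exact hB _ (hlen Z hZ i hi)

/-- Block EVAL: the extension of the data to boundary points. -/
theorem exists_sys {N : ℕ} (P : PSys N) :
    ∃ S : Sys N, ∀ W : List G, W.length = N + 2 → S.fW (W.map GP.int) = P.fW W := by
  have hFb : ∀ (s t : ℍ) (Z : List G), Z.length = N → |P.F Z s t| ≤ P.C + P.C * dist s t := by
    intro s t Z hZ
    have h1 := P.FA Z s t hZ
    have h2 := P.A_growth Z s t hZ
    calc |P.F Z s t| = |(P.F Z s t - P.A Z s t) + P.A Z s t| := by ring_nf
      _ ≤ |P.F Z s t - P.A Z s t| + |P.A Z s t| := abs_add_le _ _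
      _ ≤ _ := add_le_add h1 h2
  refine ⟨{
    f0 := fun s Y => ev Y (P.f0 s)
    fW := fun W => ev W P.fW
    F := fun X s t => ev X fun Z => P.F Z s t
    A := fun X s t => if X.length = N then ev X (fun Z => P.A Z s t) else 0
    C := P.C
    one_le_C := P.one_le_C
    f0_bdd := fun s Y hY => abs_ev_le fun Z hZ => P.f0_bdd s Z (hZ.trans hY)
    f0_inv := ?_
    f0_bd := ?_
    F_inv := ?_
    F_add := ?_
    F_bd := ?_
    FA := ?_
    A_growth := fun X s t hX => by
      rw [if_pos hX]
      exact abs_ev_le fun Z hZ => P.A_growth Z s t (hZ.trans hX)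
    A_lip := ?_
    A_par := ?_ }, fun W _ => ev_map_int W P.fW⟩
  · intro g s Y
    rw [ev_map]
    refine ev_congr fun Z _ => P.f0_inv g s Z
  · intro s W hW
    rw [ev_dl (n := N + 1) hW (P.f0_bdd s)]
    exact ev_congr fun Z hZ => P.f0_bd s Z (hZ.trans hW)
  · intro g X s t
    rw [ev_map]
    exact ev_congr fun Z _ => P.F_inv g Z s t
  · intro X s t u hX
    rw [← ev_add (fun Z hZ => hFb s t Z (hZ.trans hX)) (fun Z hZ => hFb t u Z (hZ.trans hX))]
    exact ev_congr fun Z hZ => P.F_add Z s t u (hZ.trans hX)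
  · intro Y s t hY
    rw [ev_dl (n := N) hY (hFb s t), ← ev_sub (fun Z hZ => P.f0_bdd s Z (hZ.trans hY))
      (fun Z hZ => P.f0_bdd t Z (hZ.trans hY))]
    exact ev_congr fun Z hZ => P.F_bd Z s t (hZ.trans hY)
  · intro X s t hX
    rw [if_pos hX, ← ev_sub (fun Z hZ => hFb s t Z (hZ.trans hX))
      (fun Z hZ => P.A_growth Z s t (hZ.trans hX))]
    exact abs_ev_le fun Z hZ => P.FA Z s t (hZ.trans hX)
  · intro l₁ l₂ g h s t hl
    have hl' : (l₁ ++ GP.int h :: l₂).length = N := by rw [← hl]; simp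
    rw [if_pos hl, if_pos hl']
    refine ev_sub_int_le (fun Z hZ => P.A_growth Z s t (hZ.trans hl)) fun k₁ k₂ h₁ h₂ => ?_
    refine P.A_lip k₁ k₂ g h s t ?_
    rw [← hl]
    simp [h₁, h₂]
  · intro l₁ l₂ g p s t hp
    by_cases hl : (l₁ ++ GP.bdp g :: l₂).length = N
    · have hl' : (l₁ ++ GP.bdp (g * p) :: l₂).length = N := by rw [← hl]; simp
      rw [if_pos hl, if_pos hl']
      refine ev_par hp (fun Z hZ => P.A_growth Z s t (hZ.trans hl))
        (D := P.C * dist s t) fun k₁ k₂ z w h₁ h₂ => ?_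
      refine P.A_lip k₁ k₂ z w s t ?_
      rw [← hl]
      simp [h₁, h₂]
    · have hl' : ¬ (l₁ ++ GP.bdp (g * p) :: l₂).length = N := by
        intro h
        apply hl
        rw [← h]
        simp
      rw [if_neg hl, if_neg hl']

end Pool.Agent.Helper34.BC
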