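import Pool.Agent.Helper34.BC.Haar

/-!
# A fundamental domain of finite measure of the modular group in `SL(2, ℝ)`
-/

open MeasureTheory Measure Set Filter Topology
open scoped MatrixGroups UpperHalfPlane NNReal ENNReal Modular Pointwise

namespace Pool.Agent.Helper34.BC

namespace Lat

attribute [local instance] locallyCompact secondCountable msG borelG

theorem mem_fdo_of_good {x : SL(2, ℝ)} (h1 : (x • UpperHalfPlane.I).re ≠ 1 / 2)
    (h2 : (x • UpperHalfPlane.I).re ≠ -(1 / 2))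
    (h3 : (x • UpperHalfPlane.I).re ^ 2 + (x • UpperHalfPlane.I).im ^ 2 ≠ 1)
    (hγ : x • UpperHalfPlane.I ∈ 𝒟) : x • UpperHalfPlane.I ∈ 𝒟ᵒ := by
  rw [mem_fd] at hγ
  rw [mem_fdo]
  refine ⟨lt_of_le_of_ne hγ.1 ?_, lt_of_le_of_ne hγ.2 ?_⟩
  · intro h
    apply h3
    rw [h, Complex.normSq_apply]
    simp only [UpperHalfPlane.coe_re, UpperHalfPlane.coe_im]
    ring
  · intro h
    rcases abs_eq (by norm_num : (0 : ℝ) ≤ 1 / 2) |>.1 h with h | h
    · exact h1 h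
    · exact h2 h

theorem exists_of_neg {x : SL(2, ℝ)} {γ : SL(2, ℤ)} (h5 : (io γ * x) • UpperHalfPlane.I ∈ 𝒟ᵒ)
    (h : (io γ * x) 1 0 < 0) : ∃ γ : SL(2, ℤ), io γ * x ∈ Dom := by
  refine ⟨-γ, mem_dom.2 ⟨?_, ?_⟩⟩
  · rw [mul_smul, io_smul, ModularGroup.SL_neg_smul, ← io_smul, ← mul_smul]
    exact h5
  · have h6 : (io (-γ) * x) 1 0 = -((io γ * x) 1 0) := by
      simp [Matrix.SpecialLinearGroup.coe_mul, Matrix.mul_apply, Fin.sum_univ_two, io_apply]
    rw [h6]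
    linarith

theorem countable_modular : Countable SL(2, ℤ) := by
  have : Countable (Matrix (Fin 2) (Fin 2) ℤ) :=
    inferInstanceAs (Countable (Fin 2 → Fin 2 → ℤ))
  exact Subtype.coe_injective.countable

theorem exists_of_good {x : SL(2, ℝ)}
    (hx : ∀ γ : SL(2, ℤ), ((io γ * x) • UpperHalfPlane.I).re ≠ 1 / 2 ∧
      ((io γ * x) • UpperHalfPlane.I).re ≠ -(1 / 2) ∧
      ((io γ * x) • UpperHalfPlane.I).re ^ 2 + ((io γ * x) • UpperHalfPlane.I).im ^ 2 ≠ 1 ∧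
      (io γ * x) 1 0 ≠ 0) : ∃ γ : SL(2, ℤ), io γ * x ∈ Dom := by
  obtain ⟨γ, hγ⟩ := ModularGroup.exists_smul_mem_fd (x • UpperHalfPlane.I)
  rw [← io_smul, ← mul_smul] at hγ
  obtain ⟨h1, h2, h3, h4⟩ := hx γ
  have h5 := mem_fdo_of_good h1 h2 h3 hγ
  rcases lt_or_gt_of_ne h4 with h | h
  · exact exists_of_neg h5 h
  · exact ⟨γ, mem_dom.2 ⟨h5, h⟩⟩

/-- A good point. -/
def Good (x : SL(2, ℝ)) : Prop := (x • UpperHalfPlane.I).re ≠ 1 / 2 ∧
    (x • UpperHalfPlane.I).re ≠ -(1 / 2) ∧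
    (x • UpperHalfPlane.I).re ^ 2 + (x • UpperHalfPlane.I).im ^ 2 ≠ 1 ∧ x 1 0 ≠ 0

theorem dom_cover : ∀ᵐ x ∂mu, ∃ γ : SL(2, ℤ), io γ * x ∈ Dom := by
  have h0 : ∀ᵐ x ∂mu, Good x := ae_good
  have hZ : ∀ γ : SL(2, ℤ), ∀ᵐ x ∂mu, Good (io γ * x) := fun γ =>
    (measurePreserving_mul_left mu (io γ)).quasiMeasurePreserving.ae h0
  have hc := countable_modular
  have h1 : ∀ᵐ x ∂mu, ∀ γ : SL(2, ℤ), Good (io γ * x) := ae_all_iff.2 hZ
  exact h1.mono fun x hx => exists_of_good hx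

instance : Countable io.range := by
  have := countable_modular
  exact io.rangeRestrict_surjective.countable

theorem isFundamentalDomain_dom : IsFundamentalDomain io.range Dom mu := by
  refine ⟨measurableSet_dom.nullMeasurableSet, ?_, ?_⟩
  · filter_upwards [dom_cover] with x hx
    obtain ⟨γ, hγ⟩ := hx
    exact ⟨⟨io γ, γ, rfl⟩, hγ⟩
  · rintro ⟨a, γ, rfl⟩ ⟨b, δ, rfl⟩ hab
    apply Disjoint.aedisjoint
    rw [Set.disjoint_left]
    rintro x ⟨u, hu, rfl⟩ ⟨v, hv, hvu⟩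
    apply hab
    have h1 : io δ * v = io γ * u := hvu
    have h2 : io (δ⁻¹ * γ) * u = v := by
      rw [map_mul, map_inv, mul_assoc, ← h1, inv_mul_cancel_left]
    have h3 := dom_disjoint hu (by rw [h2]; exact hv)
    have h4 : γ = δ := (inv_mul_eq_one.1 h3).symm
    rw [h4]

theorem dom_pos : mu Dom ≠ 0 := by
  intro h
  have h1 := isFundamentalDomain_dom.measure_ne_zero (NeZero.ne mu)
  exact h1 h

/-- Unfolding. -/
theorem integral_dom_mul (F : SL(2, ℝ) → ℝ) (hF : ∀ (γ : SL(2, ℤ)) x, F (io γ * x) = F x)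
    (y : SL(2, ℝ)) : ∫ x in Dom, F (x * y) ∂mu = ∫ x in Dom, F x ∂mu := by
  have h1 : IsFundamentalDomain io.range (MulOpposite.op y • Dom) mu :=
    isFundamentalDomain_dom.smul_of_comm (MulOpposite.op y)
  rw [← h1.setIntegral_eq isFundamentalDomain_dom (f := F) (by
    rintro ⟨a, γ, rfl⟩ x
    exact hF γ x)]
  have h2 := (measurePreserving_mul_right mu y).setIntegral_preimage_emb
    (MeasurableEquiv.mulRight y).measurableEmbedding F (MulOpposite.op y • Dom)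
  rw [← h2]
  congr 2
  ext x
  rw [mem_preimage]
  constructor
  · intro hx
    exact ⟨x, hx, rfl⟩
  · rintro ⟨x', hx', h⟩
    have : x' = x := mul_right_cancel h
    rwa [← this]


/-! ### The equivariant map to the modular group -/

/-- The equivalence relation of the orbits. -/
def orbS : Setoid SL(2, ℝ) where
  r x y := ∃ γ : SL(2, ℤ), io γ * x = y
  iseqv := by
    refine ⟨fun x => ⟨1, by rw [map_one, one_mul]⟩, ?_, ?_⟩
    · rintro x _ ⟨γ, rfl⟩
      exact ⟨γ⁻¹, by rw [map_inv, inv_mul_cancel_left]⟩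
    · rintro x _ _ ⟨γ, rfl⟩ ⟨δ, rfl⟩
      exact ⟨δ * γ, by rw [map_mul, mul_assoc]⟩

theorem exists_rep : ∃ r : Quotient orbS → SL(2, ℝ), (∀ o, Quotient.mk orbS (r o) = o) ∧
    ∀ d ∈ Dom, r (Quotient.mk orbS d) ∈ Dom := by
  classical
  refine ⟨fun o => if h : ∃ d ∈ Dom, Quotient.mk orbS d = o then h.choose else o.out, ?_, ?_⟩
  · intro o
    dsimp only
    split_ifs with h
    · exact h.choose_spec.2
    · exact Quotient.out_eq o
  · intro d hd
    have h : ∃ d' ∈ Dom, Quotient.mk orbS d' = Quotient.mk orbS d := ⟨d, hd, rfl⟩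
    dsimp only
    rw [dif_pos h]
    exact h.choose_spec.1

theorem exists_c : ∃ c : SL(2, ℝ) → SL(2, ℤ), (∀ γ x, c (io γ * x) = γ * c x) ∧
    ∀ x ∈ Dom, c x = 1 := by
  obtain ⟨r, hr, hr'⟩ := exists_rep
  have h1 : ∀ x, ∃ γ : SL(2, ℤ), io γ * r (Quotient.mk orbS x) = x := fun x =>
    Quotient.exact (hr (Quotient.mk orbS x))
  choose c hc using h1
  refine ⟨c, ?_, ?_⟩
  · intro γ x
    have h2 : Quotient.mk orbS (io γ * x) = Quotient.mk orbS x :=
      (Quotient.sound (s := orbS) ⟨γ, rfl⟩).symm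
    have h3 := hc (io γ * x)
    rw [h2] at h3
    have h4 := hc x
    have h5 : io (c (io γ * x)) * r (Quotient.mk orbS x) =
        io (γ * c x) * r (Quotient.mk orbS x) := by
      rw [h3, map_mul, mul_assoc, h4]
    exact io_injective (mul_right_cancel h5)
  · intro x hx
    have h3 := hc x
    exact dom_disjoint (hr' x hx) (by rw [h3]; exact hx)

/-- The map to the modular group. -/
noncomputable def cm : SL(2, ℝ) → SL(2, ℤ) := exists_c.choose

theorem cm_mul (γ : SL(2, ℤ)) (x : SL(2, ℝ)) : cm (io γ * x) = γ * cm x :=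
  exists_c.choose_spec.1 γ x

theorem cm_dom {x : SL(2, ℝ)} (hx : x ∈ Dom) : cm x = 1 := exists_c.choose_spec.2 x hx

/-- The map to the image of the modular group. -/
noncomputable def um (x : SL(2, ℝ)) : SL(2, ℝ) := io (cm x)

theorem um_mul (γ : SL(2, ℤ)) (x : SL(2, ℝ)) : um (io γ * x) = io γ * um x := by
  rw [um, cm_mul, map_mul, um]

/-- The union of the translates of the domain. -/
def Gd : Set SL(2, ℝ) := {x | ∃ γ : SL(2, ℤ), io γ * x ∈ Dom}

theorem ae_mem_gd : ∀ᵐ x ∂mu, x ∈ Gd := dom_cover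

theorem isOpen_gd : IsOpen Gd := by
  have h : Gd = ⋃ γ : SL(2, ℤ), (io γ * ·) ⁻¹' Dom := by
    ext x
    simp [Gd]
  rw [h]
  exact isOpen_iUnion fun γ => isOpen_dom.preimage (continuous_const_mul (io γ))

theorem eventually_um {x : SL(2, ℝ)} (hx : x ∈ Gd) : ∀ᶠ x' in 𝓝 x, um x' = um x := by
  obtain ⟨γ, hγ⟩ := hx
  have h1 : ∀ x' ∈ (io γ * ·) ⁻¹' Dom, um x' = io γ⁻¹ := by
    intro x' hx'
    have h2 : x' = io γ⁻¹ * (io γ * x') := by rw [map_inv, inv_mul_cancel_left]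
    have h3 : cm (io γ * x') = 1 := cm_dom hx'
    rw [um, h2, cm_mul, h3, mul_one]
  have h2 : (io γ * ·) ⁻¹' Dom ∈ 𝓝 x :=
    (isOpen_dom.preimage (continuous_const_mul (io γ))).mem_nhds hγ
  filter_upwards [h2] with x' hx'
  rw [h1 x' hx', h1 x hγ]

theorem continuousAt_um {x : SL(2, ℝ)} (hx : x ∈ Gd) : ContinuousAt um x :=
  continuousAt_const.congr ((eventually_um hx).mono fun _ h => h.symm)

theorem ae_mem_gd_mul (g : SL(2, ℝ)) : ∀ᵐ x ∂mu, x * g ∈ Gd :=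
  (measurePreserving_mul_right mu g).quasiMeasurePreserving.ae ae_mem_gd

end Lat

end Pool.Agent.Helper34.BC
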