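import Mathlib

/-!
# The modular group in `SL(2, ℝ)`: unimodularity and a fundamental domain of finite measure
-/

open MeasureTheory Measure Set Filter Topology
open scoped MatrixGroups UpperHalfPlane NNReal ENNReal

namespace Pool.Agent.Helper34.BC

namespace Lat

theorem locallyCompact : LocallyCompactSpace SL(2, ℝ) := by
  have h : LocallyCompactSpace (Matrix (Fin 2) (Fin 2) ℝ) :=
    inferInstanceAs (LocallyCompactSpace (Fin 2 → Fin 2 → ℝ))
  exact Matrix.SpecialLinearGroup.isClosedEmbedding_val.locallyCompactSpace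

theorem secondCountable : SecondCountableTopology SL(2, ℝ) := by
  have h : SecondCountableTopology (Matrix (Fin 2) (Fin 2) ℝ) :=
    inferInstanceAs (SecondCountableTopology (Fin 2 → Fin 2 → ℝ))
  exact Matrix.SpecialLinearGroup.isClosedEmbedding_val.isEmbedding.secondCountableTopology

/-- Borel sets of the group. -/
@[reducible] def msG : MeasurableSpace SL(2, ℝ) := borel SL(2, ℝ)

attribute [local instance] locallyCompact secondCountable msG

theorem borelG : BorelSpace SL(2, ℝ) := ⟨rfl⟩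

attribute [local instance] borelG

/-- Upper unipotent elements. -/
def nu (x : ℝ) : SL(2, ℝ) := ⟨!![1, x; 0, 1], by simp⟩

/-- Lower unipotent elements. -/
def nl (x : ℝ) : SL(2, ℝ) := ⟨!![1, 0; x, 1], by simp⟩

/-- The diagonal element with entries `2`, `1/2`. -/
noncomputable def d2 : SL(2, ℝ) := ⟨!![2, 0; 0, 1 / 2], by simp⟩

theorem coe_nu (x : ℝ) : (nu x : Matrix (Fin 2) (Fin 2) ℝ) = !![1, x; 0, 1] := rfl

theorem coe_nl (x : ℝ) : (nl x : Matrix (Fin 2) (Fin 2) ℝ) = !![1, 0; x, 1] := rfl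

theorem coe_d2 : (d2 : Matrix (Fin 2) (Fin 2) ℝ) = !![2, 0; 0, 1 / 2] := rfl

theorem nu_add (x y : ℝ) : nu (x + y) = nu x * nu y := by
  ext i j
  fin_cases i <;> fin_cases j <;> simp [coe_nu, Matrix.SpecialLinearGroup.coe_mul, Matrix.mul_apply, Fin.sum_univ_two, add_comm]

theorem nl_add (x y : ℝ) : nl (x + y) = nl x * nl y := by
  ext i j
  fin_cases i <;> fin_cases j <;> simp [coe_nl, Matrix.SpecialLinearGroup.coe_mul, Matrix.mul_apply, Fin.sum_univ_two]

theorem d2_nu (x : ℝ) : d2 * nu x = nu (4 * x) * d2 := by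
  ext i j
  fin_cases i <;> fin_cases j <;> simp [coe_nu, coe_d2, Matrix.SpecialLinearGroup.coe_mul, Matrix.mul_apply, Fin.sum_univ_two]
  ring

theorem nl_d2 (x : ℝ) : nl x * d2 = d2 * nl (4 * x) := by
  ext i j
  fin_cases i <;> fin_cases j <;> simp [coe_nl, coe_d2, Matrix.SpecialLinearGroup.coe_mul, Matrix.mul_apply, Fin.sum_univ_two]
  ring

theorem eq_of_four {x : ℝ≥0} (hx : x ≠ 0) (h : x * x * (x * x) = x) : x = 1 := by
  have h1 : x * x * x = 1 := by
    have : x * (x * x * x) = x * 1 := by rw [mul_one]; nth_rewrite 5 [← h]; ring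
    exact mul_left_cancel₀ hx this
  have h2 : x ^ 3 = 1 := by rw [← h1]; ring
  exact (pow_eq_one_iff_of_nonneg zero_le (by norm_num)).1 h2

theorem hom_nu (f : SL(2, ℝ) →* ℝ≥0) (hf : ∀ g, f g ≠ 0) (x : ℝ) : f (nu x) = 1 := by
  have h1 : f (nu (4 * x)) = f (nu x) := by
    have := congrArg f (d2_nu x)
    rw [map_mul, map_mul, mul_comm] at this
    exact (mul_right_cancel₀ (hf d2) this).symm
  have h2 : nu (4 * x) = nu x * nu x * (nu x * nu x) := by
    rw [← nu_add, ← nu_add]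
    congr 1
    ring
  rw [h2, map_mul, map_mul] at h1
  exact eq_of_four (hf _) h1

theorem hom_nl (f : SL(2, ℝ) →* ℝ≥0) (hf : ∀ g, f g ≠ 0) (x : ℝ) : f (nl x) = 1 := by
  have h1 : f (nl (4 * x)) = f (nl x) := by
    have := congrArg f (nl_d2 x)
    rw [map_mul, map_mul, mul_comm] at this
    exact (mul_left_cancel₀ (hf d2) this).symm
  have h2 : nl (4 * x) = nl x * nl x * (nl x * nl x) := by
    rw [← nl_add, ← nl_add]
    congr 1
    ring
  rw [h2, map_mul, map_mul] at h1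
  exact eq_of_four (hf _) h1

theorem hom_eq_one_of_ne (f : SL(2, ℝ) →* ℝ≥0) (hf : ∀ g, f g ≠ 0) (g : SL(2, ℝ))
    (hg : g 1 0 ≠ 0) : f g = 1 := by
  have hdet : g 0 0 * g 1 1 - g 0 1 * g 1 0 = 1 := by
    have := g.det_coe
    rwa [Matrix.det_fin_two] at this
  have h : g = nu ((g 0 0 - 1) / g 1 0) * nl (g 1 0) * nu ((g 1 1 - 1) / g 1 0) := by
    ext i j
    fin_cases i <;> fin_cases j <;>
      simp [coe_nu, coe_nl, Matrix.SpecialLinearGroup.coe_mul, Matrix.mul_apply, Fin.sum_univ_two, hg]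
    · field_simp
      linarith
    · field_simp
      ring
  rw [h, map_mul, map_mul, hom_nu f hf, hom_nl f hf, hom_nu f hf]
  simp

theorem hom_eq_one (f : SL(2, ℝ) →* ℝ≥0) (hf : ∀ g, f g ≠ 0) (g : SL(2, ℝ)) : f g = 1 := by
  by_cases hg : g 1 0 = 0
  · have hdet : g 0 0 * g 1 1 - g 0 1 * g 1 0 = 1 := by
      have := g.det_coe
      rwa [Matrix.det_fin_two] at this
    have h00 : g 0 0 ≠ 0 := by
      intro h
      rw [h, hg] at hdet
      simp at hdet
    have h1 : (nl 1 * g) 1 0 ≠ 0 := by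
      simp [coe_nl, Matrix.SpecialLinearGroup.coe_mul, Matrix.mul_apply, Fin.sum_univ_two, hg, h00]
    have h2 := hom_eq_one_of_ne f hf _ h1
    rw [map_mul, hom_nl f hf, one_mul] at h2
    exact h2
  · exact hom_eq_one_of_ne f hf g hg

/-- Haar measure. -/
noncomputable def mu : Measure SL(2, ℝ) := haar

instance : IsHaarMeasure mu := by unfold mu; infer_instance

instance : IsMulRightInvariant mu := by
  constructor
  intro g
  have h := map_right_mul_eq_modularCharacterFun_smul mu g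
  have h1 : modularCharacterFun g = 1 :=
    hom_eq_one modularCharacter (fun g => (modularCharacterFun_pos g).ne') g
  rw [h, h1, one_smul]

/-! ### Null sets -/

/-- Uncountably many disjoint translates. -/
theorem null_of_disjoint {S : Set SL(2, ℝ)} (hS : MeasurableSet S) (y : ℝ → SL(2, ℝ))
    (hd : ∀ s t : ℝ, ∀ x, y s * x ∈ S → y t * x ∈ S → s = t) : mu S = 0 := by
  by_contra hne
  have h1 := countable_meas_pos_of_disjoint_iUnion (μ := mu)
    (As := fun s : ℝ => (y s * ·) ⁻¹' S) (fun s => hS.preimage (measurable_const_mul _)) (by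
      intro s t hst
      rw [Function.onFun, Set.disjoint_left]
      intro x hx hx'
      exact hst (hd s t x hx hx'))
  have h2 : {i : ℝ | 0 < mu ((y i * ·) ⁻¹' S)} = univ := by
    ext i
    simp only [mem_setOf_eq, mem_univ, iff_true]
    rw [measure_preimage_mul]
    exact pos_iff_ne_zero.2 hne
  rw [h2] at h1
  exact not_countable_univ h1

theorem re_toSL2R_smul (z w : ℍ) : (z.toSL2R • w).re = z.im * w.re + z.re := by
  have hz := z.im_pos
  have h : ((z.toSL2R • w : ℍ) : ℂ) = z.im * w + z.re := by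
    rw [UpperHalfPlane.coe_specialLinearGroup_apply, UpperHalfPlane.coe_toSL2R]
    have hs : (√z.im : ℂ) ≠ 0 := by
      exact_mod_cast (Real.sqrt_pos.2 hz).ne'
    have hs2 : (√z.im : ℂ) * √z.im = z.im := by
      exact_mod_cast Real.mul_self_sqrt hz.le
    simp
    field_simp
    rw [← hs2]
    ring
  rw [← UpperHalfPlane.coe_re, h]
  simp

theorem im_toSL2R_smul (z w : ℍ) : (z.toSL2R • w).im = z.im * w.im := by
  have hz := z.im_pos
  have h : ((z.toSL2R • w : ℍ) : ℂ) = z.im * w + z.re := by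
    rw [UpperHalfPlane.coe_specialLinearGroup_apply, UpperHalfPlane.coe_toSL2R]
    have hs : (√z.im : ℂ) ≠ 0 := by
      exact_mod_cast (Real.sqrt_pos.2 hz).ne'
    have hs2 : (√z.im : ℂ) * √z.im = z.im := by
      exact_mod_cast Real.mul_self_sqrt hz.le
    simp
    field_simp
    rw [← hs2]
    ring
  rw [← UpperHalfPlane.coe_im, h]
  simp

theorem continuous_smul_I : Continuous fun g : SL(2, ℝ) => g • UpperHalfPlane.I :=
  continuous_id.smul continuous_const

theorem continuous_entry (i j : Fin 2) : Continuous fun g : SL(2, ℝ) => g i j :=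
  (continuous_apply_apply i j).comp continuous_subtype_val

theorem continuous_re_smul_I : Continuous fun g : SL(2, ℝ) => (g • UpperHalfPlane.I).re :=
  UpperHalfPlane.continuous_re.comp continuous_smul_I

theorem continuous_im_smul_I : Continuous fun g : SL(2, ℝ) => (g • UpperHalfPlane.I).im :=
  UpperHalfPlane.continuous_im.comp continuous_smul_I

theorem null_re (r : ℝ) : mu {g : SL(2, ℝ) | (g • UpperHalfPlane.I).re = r} = 0 := by
  refine null_of_disjoint (measurableSet_eq_fun continuous_re_smul_I.measurable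
    measurable_const) (fun s => UpperHalfPlane.toSL2R ⟨⟨s, 1⟩, one_pos⟩) ?_
  intro s t x hs ht
  simp only [mem_setOf_eq, mul_smul, re_toSL2R_smul] at hs ht
  have h1 : ∀ s : ℝ, (⟨⟨s, 1⟩, one_pos⟩ : ℍ).re = s := fun s => rfl
  have h2 : ∀ s : ℝ, (⟨⟨s, 1⟩, one_pos⟩ : ℍ).im = 1 := fun s => rfl
  rw [h1, h2] at hs ht
  linarith

theorem null_circle : mu {g : SL(2, ℝ) | (g • UpperHalfPlane.I).re ^ 2 +
    (g • UpperHalfPlane.I).im ^ 2 = 1} = 0 := by
  refine null_of_disjoint (measurableSet_eq_fun ((continuous_re_smul_I.pow 2).add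
    (continuous_im_smul_I.pow 2)).measurable
    measurable_const) (fun s => UpperHalfPlane.toSL2R ⟨⟨0, Real.exp s⟩, Real.exp_pos s⟩) ?_
  intro s t x hs ht
  simp only [mem_setOf_eq, mul_smul, re_toSL2R_smul, im_toSL2R_smul] at hs ht
  have h1 : ∀ s : ℝ, (⟨⟨0, Real.exp s⟩, Real.exp_pos s⟩ : ℍ).re = 0 := fun s => rfl
  have h2 : ∀ s : ℝ, (⟨⟨0, Real.exp s⟩, Real.exp_pos s⟩ : ℍ).im = Real.exp s := fun s => rfl
  rw [h1, h2] at hs ht
  have h3 : Real.exp s ^ 2 * ((x • UpperHalfPlane.I).re ^ 2 + (x • UpperHalfPlane.I).im ^ 2) =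
      Real.exp t ^ 2 * ((x • UpperHalfPlane.I).re ^ 2 + (x • UpperHalfPlane.I).im ^ 2) := by
    nlinarith
  have h4 : 0 < (x • UpperHalfPlane.I).re ^ 2 + (x • UpperHalfPlane.I).im ^ 2 := by
    have := (x • UpperHalfPlane.I).im_pos
    positivity
  have h5 : Real.exp s ^ 2 = Real.exp t ^ 2 := mul_right_cancel₀ h4.ne' h3
  have h6 : Real.exp s = Real.exp t :=
    (pow_left_inj₀ (Real.exp_pos s).le (Real.exp_pos t).le two_ne_zero).1 h5
  exact Real.exp_injective h6

theorem null_lower : mu {g : SL(2, ℝ) | g 1 0 = 0} = 0 := by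
  refine null_of_disjoint (measurableSet_eq_fun (continuous_entry 1 0).measurable
    measurable_const) nl ?_
  intro s t x hs ht
  have hdet : x 0 0 * x 1 1 - x 0 1 * x 1 0 = 1 := by
    have := x.det_coe
    rwa [Matrix.det_fin_two] at this
  simp [coe_nl, Matrix.SpecialLinearGroup.coe_mul, Matrix.mul_apply, Fin.sum_univ_two] at hs ht
  have h1 : (s - t) * x 0 0 = 0 := by linarith
  rcases mul_eq_zero.1 h1 with h | h
  · linarith
  · exfalso
    rw [h] at hs ht hdet
    simp at hs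
    rw [hs] at hdet
    simp at hdet

/-! ### Finite measure -/

/-- A strip in the group. -/
def strip (a b c d : ℝ) : Set SL(2, ℝ) :=
  {g | a ≤ (g • UpperHalfPlane.I).re ∧ (g • UpperHalfPlane.I).re < b ∧
    c ≤ (g • UpperHalfPlane.I).im ∧ (g • UpperHalfPlane.I).im < d}

theorem measurableSet_strip (a b c d : ℝ) : MeasurableSet (strip a b c d) := by
  have h1 := continuous_re_smul_I.measurable
  have h2 := continuous_im_smul_I.measurable
  exact (measurableSet_le measurable_const h1).inter ((measurableSet_lt h1 measurable_const).inter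
    ((measurableSet_le measurable_const h2).inter (measurableSet_lt h2 measurable_const)))

/-- Affine maps. -/
theorem strip_affine {r y : ℝ} (hy : 0 < y) (a b c d : ℝ) :
    mu (strip (y * a + r) (y * b + r) (y * c) (y * d)) = mu (strip a b c d) := by
  rw [← measure_preimage_mul mu (UpperHalfPlane.toSL2R ⟨⟨r, y⟩, hy⟩)]
  congr 1
  ext g
  have h1 : (⟨⟨r, y⟩, hy⟩ : ℍ).re = r := rfl
  have h2 : (⟨⟨r, y⟩, hy⟩ : ℍ).im = y := rfl
  simp only [strip, mem_preimage, mem_setOf_eq, mul_smul, re_toSL2R_smul, im_toSL2R_smul, h1, h2,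
    add_le_add_iff_right, add_lt_add_iff_right, mul_le_mul_iff_right₀ hy, mul_lt_mul_iff_right₀ hy]

theorem strip_half (w c d : ℝ) (hw : 0 ≤ w) :
    mu (strip 0 (2 * w) c d) = 2 * mu (strip 0 w c d) := by
  have h1 : strip 0 (2 * w) c d = strip 0 w c d ∪ strip w (2 * w) c d := by
    ext g
    simp only [strip, mem_union, mem_setOf_eq]
    constructor
    · rintro ⟨h1, h2, h3, h4⟩
      rcases lt_or_ge (g • UpperHalfPlane.I).re w with h | h
      · exact Or.inl ⟨h1, h, h3, h4⟩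
      · exact Or.inr ⟨h, h2, h3, h4⟩
    · rintro (⟨h1, h2, h3, h4⟩ | ⟨h1, h2, h3, h4⟩)
      · exact ⟨h1, by linarith, h3, h4⟩
      · exact ⟨by linarith, h2, h3, h4⟩
  have h2 : Disjoint (strip 0 w c d) (strip w (2 * w) c d) := by
    rw [Set.disjoint_left]
    intro g hg hg'
    exact absurd hg.2.1 (not_lt.2 hg'.1)
  have h3 : mu (strip w (2 * w) c d) = mu (strip 0 w c d) := by
    have := strip_affine (r := w) (y := 1) one_pos 0 w c d
    rw [← this]
    congr 2 <;> ring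
  rw [h1, measure_union h2 (measurableSet_strip _ _ _ _), h3, two_mul]

theorem strip_bounded : mu (strip 0 2 (1 / 2) 1) < ∞ := by
  have h1 : strip 0 2 (1 / 2) 1 ⊆ (fun g : SL(2, ℝ) => g • UpperHalfPlane.I) ⁻¹'
      Metric.closedBall UpperHalfPlane.I (4 + Real.log 2) := by
    rintro g ⟨h1, h2, h3, h4⟩
    rw [mem_preimage, Metric.mem_closedBall]
    set z := g • UpperHalfPlane.I with hz
    have hv : dist z (⟨⟨0, z.im⟩, z.im_pos⟩ : ℍ) ≤ 4 := by
      have h5 := UpperHalfPlane.sinh_half_dist z (⟨⟨0, z.im⟩, z.im_pos⟩ : ℍ)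
      have h6 : dist z (⟨⟨0, z.im⟩, z.im_pos⟩ : ℍ) / 2 ≤
          Real.sinh (dist z (⟨⟨0, z.im⟩, z.im_pos⟩ : ℍ) / 2) :=
        Real.self_le_sinh_iff.2 (by positivity)
      have h7 : (⟨⟨0, z.im⟩, z.im_pos⟩ : ℍ).im = z.im := rfl
      have h8 : dist (z : ℂ) ((⟨⟨0, z.im⟩, z.im_pos⟩ : ℍ) : ℂ) = |z.re| := by
        rw [Complex.dist_eq]
        have : (z : ℂ) - ((⟨⟨0, z.im⟩, z.im_pos⟩ : ℍ) : ℂ) = ((z.re : ℝ) : ℂ) := by
          apply Complex.ext
          · simp
          · simp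
        rw [this, Complex.norm_real, Real.norm_eq_abs]
      rw [h7, Real.sqrt_mul_self z.im_pos.le, h8] at h5
      rw [h5] at h6
      have h9 : |z.re| / (2 * z.im) ≤ 2 := by
        rw [div_le_iff₀ (by positivity), abs_of_nonneg h1]
        nlinarith
      linarith
    have hw : dist (⟨⟨0, z.im⟩, z.im_pos⟩ : ℍ) UpperHalfPlane.I ≤ Real.log 2 := by
      rw [UpperHalfPlane.dist_of_re_eq (by simp)]
      have h7 : (⟨⟨0, z.im⟩, z.im_pos⟩ : ℍ).im = z.im := rfl
      rw [h7, UpperHalfPlane.I_im, Real.log_one, Real.dist_eq, sub_zero]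
      have h8 : Real.log z.im ≤ 0 := Real.log_nonpos z.im_pos.le h4.le
      rw [abs_of_nonpos h8]
      have h9 : Real.log (1 / 2) ≤ Real.log z.im := Real.log_le_log (by norm_num) h3
      rw [one_div, Real.log_inv] at h9
      linarith
    exact (dist_triangle _ _ _).trans (add_le_add hv hw)
  refine (measure_mono h1).trans_lt ?_
  have h2 : IsCompact ((fun g : SL(2, ℝ) => g • UpperHalfPlane.I) ⁻¹'
      Metric.closedBall UpperHalfPlane.I (4 + Real.log 2)) :=
    UpperHalfPlane.isProperMap_smul_I.isCompact_preimage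
      (isCompact_closedBall UpperHalfPlane.I (4 + Real.log 2))
  exact h2.measure_lt_top

theorem strip_pow (k : ℕ) : mu (strip 0 (2 / 2 ^ k) (1 / 2) 1) * 2 ^ k =
    mu (strip 0 2 (1 / 2) 1) := by
  induction k with
  | zero => simp
  | succ k ih =>
    rw [← ih]
    have h1 := strip_half (2 / 2 ^ (k + 1)) (1 / 2) 1 (by positivity)
    have h2 : 2 * (2 / 2 ^ (k + 1)) = (2 / 2 ^ k : ℝ) := by
      rw [pow_succ]
      field_simp
    rw [h2] at h1
    rw [h1, pow_succ]
    ring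

theorem strip_top : mu {g : SL(2, ℝ) | -1 ≤ (g • UpperHalfPlane.I).re ∧
    (g • UpperHalfPlane.I).re < 1 ∧ 1 / 2 ≤ (g • UpperHalfPlane.I).im} < ∞ := by
  have h1 : {g : SL(2, ℝ) | -1 ≤ (g • UpperHalfPlane.I).re ∧
      (g • UpperHalfPlane.I).re < 1 ∧ 1 / 2 ≤ (g • UpperHalfPlane.I).im} ⊆
      ⋃ k : ℕ, strip (-1) 1 (2 ^ k * (1 / 2)) (2 ^ k * 1) := by
    rintro g ⟨h1, h2, h3⟩
    obtain ⟨k, hk1, hk2⟩ := exists_nat_pow_near (x := 2 * (g • UpperHalfPlane.I).im) (y := 2)
      (by linarith) one_lt_two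
    rw [mem_iUnion]
    refine ⟨k, h1, h2, by linarith, ?_⟩
    rw [pow_succ] at hk2
    linarith
  have h2 : ∀ k : ℕ, mu (strip (-1) 1 (2 ^ k * (1 / 2)) (2 ^ k * 1)) =
      mu (strip 0 2 (1 / 2) 1) * (2⁻¹ : ℝ≥0∞) ^ k := by
    intro k
    have h3 := strip_affine (r := -1) (y := 2 ^ k) (by positivity) 0 (2 / 2 ^ k) (1 / 2) 1
    have h4 : (2 : ℝ) ^ k * (2 / 2 ^ k) + -1 = 1 := by
      field_simp
      norm_num
    rw [h4, mul_zero, zero_add] at h3
    rw [h3, ← strip_pow k, mul_assoc, ← mul_pow, ENNReal.mul_inv_cancel two_ne_zero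
      ENNReal.ofNat_ne_top, one_pow, mul_one]
  refine (measure_mono h1).trans_lt ((measure_iUnion_le _).trans_lt ?_)
  simp_rw [h2]
  rw [ENNReal.tsum_mul_left, ENNReal.tsum_geometric]
  refine ENNReal.mul_lt_top strip_bounded ?_
  rw [ENNReal.inv_lt_top]
  norm_num

/-! ### The fundamental domain -/

open scoped Modular Pointwise

/-- The inclusion of the modular group. -/
noncomputable def io : SL(2, ℤ) →* SL(2, ℝ) :=
  Matrix.SpecialLinearGroup.map (Int.castRingHom ℝ)

theorem io_apply (γ : SL(2, ℤ)) (i j : Fin 2) : io γ i j = (γ i j : ℝ) := rfl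

theorem io_smul (γ : SL(2, ℤ)) (z : ℍ) : io γ • z = γ • z := by
  apply UpperHalfPlane.ext
  rw [UpperHalfPlane.coe_specialLinearGroup_apply, UpperHalfPlane.coe_specialLinearGroup_apply]
  simp [io_apply]

theorem io_injective : Function.Injective io := by
  intro γ δ h
  ext i j
  have h1 : io γ i j = io δ i j := by rw [h]
  rw [io_apply, io_apply] at h1
  exact_mod_cast h1

/-- A fundamental domain of the modular group. -/
def Dom : Set SL(2, ℝ) := {x | x • UpperHalfPlane.I ∈ 𝒟ᵒ ∧ 0 < x 1 0}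

theorem mem_dom {x : SL(2, ℝ)} : x ∈ Dom ↔ x • UpperHalfPlane.I ∈ 𝒟ᵒ ∧ 0 < x 1 0 := Iff.rfl

theorem mem_fdo {z : ℍ} : z ∈ 𝒟ᵒ ↔ 1 < Complex.normSq (z : ℂ) ∧ |z.re| < (1 : ℝ) / 2 := Iff.rfl

theorem mem_fd {z : ℍ} : z ∈ 𝒟 ↔ 1 ≤ Complex.normSq (z : ℂ) ∧ |z.re| ≤ (1 : ℝ) / 2 := Iff.rfl

theorem isOpen_dom : IsOpen Dom :=
  (ModularGroup.isOpen_fdo.preimage continuous_smul_I).inter
    (isOpen_lt continuous_const (continuous_entry 1 0))

theorem measurableSet_dom : MeasurableSet Dom := isOpen_dom.measurableSet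

theorem dom_finite : mu Dom < ∞ := by
  refine (measure_mono ?_).trans_lt strip_top
  rintro x ⟨hx, -⟩
  have h1 := abs_lt.1 hx.2
  have h2 := ModularGroup.three_lt_four_mul_im_sq_of_mem_fdo hx
  have h3 := (x • UpperHalfPlane.I).im_pos
  refine ⟨by linarith, by linarith, ?_⟩
  by_contra h
  push Not at h
  nlinarith

theorem dom_disjoint {γ : SL(2, ℤ)} {x : SL(2, ℝ)} (hx : x ∈ Dom) (hx' : io γ * x ∈ Dom) :
    γ = 1 := by
  have h1 : γ • (x • UpperHalfPlane.I) ∈ 𝒟ᵒ := by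
    rw [← io_smul, ← mul_smul]
    exact hx'.1
  rcases ModularGroup.eq_one_or_neg_one_of_mem_fdo_mem_fdo hx.1 h1 with h | h
  · exact h
  · exfalso
    have h2 := hx'.2
    have h3 := hx.2
    rw [h] at h2
    simp [Matrix.SpecialLinearGroup.coe_mul, Matrix.mul_apply, Fin.sum_univ_two, io_apply] at h2
    linarith

theorem ae_good : ∀ᵐ x ∂mu, (x • UpperHalfPlane.I).re ≠ 1 / 2 ∧
    (x • UpperHalfPlane.I).re ≠ -(1 / 2) ∧
    (x • UpperHalfPlane.I).re ^ 2 + (x • UpperHalfPlane.I).im ^ 2 ≠ 1 ∧ x 1 0 ≠ 0 := by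
  have h1 : ∀ᵐ x ∂mu, (x • UpperHalfPlane.I).re ≠ 1 / 2 := by
    rw [ae_iff]
    simpa using null_re (1 / 2)
  have h2 : ∀ᵐ x ∂mu, (x • UpperHalfPlane.I).re ≠ -(1 / 2) := by
    rw [ae_iff]
    simpa using null_re (-(1 / 2))
  have h3 : ∀ᵐ x ∂mu, (x • UpperHalfPlane.I).re ^ 2 + (x • UpperHalfPlane.I).im ^ 2 ≠ 1 := by
    rw [ae_iff]
    simpa using null_circle
  have h4 : ∀ᵐ x ∂mu, x 1 0 ≠ 0 := by
    rw [ae_iff]
    simpa using null_lower
  filter_upwards [h1, h2, h3, h4] with x h1 h2 h3 h4 using ⟨h1, h2, h3, h4⟩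

end Lat

end Pool.Agent.Helper34.BC
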