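import Pool.Agent.Helper34.BC.Prism
import Pool.Agent.Helper34.BC.FundDom

/-!
# Project BC, block LAT: a continuous primitive from an arbitrary one

If a continuous bounded invariant cocycle on `SL(2, ℝ)` has a bounded invariant primitive, which may
be an arbitrary function, then it has a continuous bounded invariant primitive: restriction to the
modular group and transfer.
-/

open MeasureTheory Measure Set Filter Topology
open scoped MatrixGroups UpperHalfPlane NNReal ENNReal

namespace Pool.Agent.Helper34.BC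

open Pool.Agent.Helper11.BC

namespace Lat

attribute [local instance] locallyCompact secondCountable msG borelG

section

variable {N : ℕ} (b : (Fin (N + 2) → G) → ℝ) (h : (Fin (N + 1) → G) → ℝ)

/-- The function to be averaged. -/
noncomputable def Ph (y : Fin (N + 1) → G) : ℝ :=
  h (fun j => um (y j)) + pr um (List.ofFn y) (toL b)

variable {b h}

theorem Ph_abs {C D : ℝ} (hb : ∀ x, |b x| ≤ C) (hh : ∀ x, |h x| ≤ D) (y : Fin (N + 1) → G) :
    |Ph b h y| ≤ D + (N + 1) * C := by
  have hC : 0 ≤ C := (abs_nonneg _).trans (hb fun _ => 1)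
  refine (abs_add_le _ _).trans (add_le_add (hh _) ?_)
  refine (abs_pr_le (C := C) fun w _ => ?_).trans (le_of_eq ?_)
  · unfold toL
    split_ifs
    · exact hb _
    · simpa using hC
  · rw [List.length_ofFn]
    push_cast
    ring

theorem Ph_mul (hi : ∀ (g : G) (x : Fin (N + 2) → G), b (fun j => g * x j) = b x)
    (hj : ∀ (g : G) (x : Fin (N + 1) → G), h (fun j => g * x j) = h x) (γ : SL(2, ℤ))
    (y : Fin (N + 1) → G) : Ph b h (fun j => io γ * y j) = Ph b h y := by
  unfold Ph
  congr 1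
  · simp only [um_mul]
    exact hj _ _
  · have h1 : (List.ofFn fun j => io γ * y j) = (List.ofFn y).map (io γ * ·) := by
      rw [List.map_ofFn]
      rfl
    rw [h1, pr_map (um_mul γ)]
    refine pr_congr fun w _ => ?_
    unfold toL
    by_cases hw : w.length = N + 2
    · have hw' : (w.map (io γ * ·)).length = N + 2 := by rw [List.length_map, hw]
      rw [dif_pos hw, dif_pos hw', ← hi (io γ) fun i => w.get (i.cast hw.symm)]
      congr 1
      funext i
      simp
    · have hw' : ¬ (w.map (io γ * ·)).length = N + 2 := by rwa [List.length_map]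
      rw [dif_neg hw, dif_neg hw']

theorem Ph_coboundary
    (hz : ∀ x : Fin (N + 3) → G,
      ∑ i : Fin (N + 3), (-1 : ℝ) ^ (i : ℕ) * b (fun j => x (Fin.succAbove i j)) = 0)
    (hd : ∀ x : Fin (N + 2) → G,
        b x = ∑ i : Fin (N + 2), (-1 : ℝ) ^ (i : ℕ) * h (fun j => x (Fin.succAbove i j)))
    (x : Fin (N + 2) → G) :
    b x = ∑ i : Fin (N + 2), (-1 : ℝ) ^ (i : ℕ) * Ph b h (fun j => x (Fin.succAbove i j)) := by
  have h1 := pr_homotopy um (List.ofFn x) (toL b)
  have h2 : pr um (List.ofFn x) (dl (toL b)) = 0 := by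
    rw [← pr_zero um (List.ofFn x)]
    refine pr_congr fun w hw => ?_
    rw [List.length_ofFn] at hw
    obtain ⟨z, rfl⟩ : ∃ z : Fin (N + 3) → G, w = List.ofFn z := by
      refine ⟨fun i => w.get (i.cast hw.symm), ?_⟩
      refine List.ext_getElem (by rw [List.length_ofFn, hw]) fun i h1 h2 => ?_
      rw [List.getElem_ofFn]
      rfl
    rw [dl_ofFn]
    simp only [toL_ofFn]
    exact hz z
  have h3 : toL b ((List.ofFn x).map um) = b fun j => um (x j) := by
    rw [List.map_ofFn, toL_ofFn]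
    rfl
  rw [h2, toL_ofFn, h3, dl_ofFn, add_zero] at h1
  have h4 := hd fun j => um (x j)
  have h5 : b x = (∑ i : Fin (N + 2), (-1 : ℝ) ^ (i : ℕ) *
      pr um (List.ofFn fun j => x (i.succAbove j)) (toL b)) + b fun j => um (x j) := by
    linarith
  rw [h5, h4, ← Finset.sum_add_distrib]
  refine Finset.sum_congr rfl fun i _ => ?_
  unfold Ph
  ring

theorem continuousAt_Ph {X : Type*} [TopologicalSpace X] (hc : Continuous b) {x₀ : X}
    {y : X → Fin (N + 1) → G} (hy : ContinuousAt y x₀) (hg : ∀ j, y x₀ j ∈ Gd) :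
    ContinuousAt (fun x => Ph b h (y x)) x₀ := by
  have h1 : ContinuousAt (fun x => h fun j => um (y x j)) x₀ := by
    have h2 : ∀ᶠ x in 𝓝 x₀, ∀ j, um (y x j) = um (y x₀ j) := by
      rw [Filter.eventually_all]
      intro j
      have h3 : ContinuousAt (fun x => y x j) x₀ := (continuous_apply j).continuousAt.comp hy
      exact h3.eventually (eventually_um (hg j))
    refine continuousAt_const (y := h fun j => um (y x₀ j)) |>.congr ?_
    filter_upwards [h2] with x hx
    congr 1
    funext j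
    exact (hx j).symm
  exact h1.add (continuousAt_pr (CA_toL x₀ hc) hy fun j => continuousAt_um (hg j))

/-- The good set of a tuple. -/
def Wg (g : Fin (N + 1) → SL(2, ℝ)) : Set SL(2, ℝ) := {x | ∀ j, x * g j ∈ Gd}

theorem mem_Wg {g : Fin (N + 1) → SL(2, ℝ)} {x : SL(2, ℝ)} : x ∈ Wg g ↔ ∀ j, x * g j ∈ Gd :=
  Iff.rfl

theorem isOpen_Wg (g : Fin (N + 1) → SL(2, ℝ)) : IsOpen (Wg g) := by
  have : Wg g = ⋂ j, (· * g j) ⁻¹' Gd := by
    ext x
    simp [Wg]
  rw [this]
  exact isOpen_iInter_of_finite fun j => isOpen_gd.preimage (continuous_mul_const (g j))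

theorem ae_Wg (g : Fin (N + 1) → SL(2, ℝ)) : ∀ᵐ x ∂mu, x ∈ Wg g :=
  (ae_all_iff.2 fun j => ae_mem_gd_mul (g j)).mono fun _ hx => mem_Wg.2 hx

theorem aesm_Ph (hc : Continuous b) (g : Fin (N + 1) → SL(2, ℝ)) :
    AEStronglyMeasurable (fun x => Ph b h fun j => x * g j) mu := by
  have hcont : ContinuousOn (fun x => Ph b h fun j => x * g j) (Wg g) := by
    intro x hx
    have hx' : ∀ j, x * g j ∈ Gd := mem_Wg.1 hx
    have hy : Continuous fun (x : SL(2, ℝ)) (j : Fin (N + 1)) => x * g j :=
      continuous_pi fun j => continuous_mul_const (g j)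
    have h2 := continuousAt_Ph (h := h) (y := fun (x : SL(2, ℝ)) (j : Fin (N + 1)) => x * g j) hc
      (x₀ := x) hy.continuousAt hx'
    exact h2.continuousWithinAt
  have h1 := hcont.aestronglyMeasurable (μ := mu) (isOpen_Wg g).measurableSet
  rwa [restrict_eq_self_of_ae_mem (ae_Wg g)] at h1

end

theorem lat {N : ℕ} (b : (Fin (N + 2) → G) → ℝ) (hc : Continuous b)
    (hi : ∀ (g : G) (x : Fin (N + 2) → G), b (fun j => g * x j) = b x)
    (hb : ∃ C : ℝ, ∀ x, |b x| ≤ C)
    (hz : ∀ x : Fin (N + 3) → G,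
      ∑ i : Fin (N + 3), (-1 : ℝ) ^ (i : ℕ) * b (fun j => x (Fin.succAbove i j)) = 0)
    (h : (Fin (N + 1) → G) → ℝ) (hj : ∀ (g : G) (x : Fin (N + 1) → G), h (fun j => g * x j) = h x)
    (hh : ∃ C : ℝ, ∀ x, |h x| ≤ C)
    (hd : ∀ x : Fin (N + 2) → G,
        b x = ∑ i : Fin (N + 2), (-1 : ℝ) ^ (i : ℕ) * h (fun j => x (Fin.succAbove i j))) :
    ∃ h : (Fin (N + 1) → G) → ℝ, Continuous h ∧
      (∀ (g : G) (x : Fin (N + 1) → G), h (fun j => g * x j) = h x) ∧
      (∃ C : ℝ, ∀ x, |h x| ≤ C) ∧
      ∀ x : Fin (N + 2) → G,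
        b x = ∑ i : Fin (N + 2), (-1 : ℝ) ^ (i : ℕ) * h (fun j => x (Fin.succAbove i j)) := by
  obtain ⟨C, hC⟩ := hb
  obtain ⟨D, hD⟩ := hh
  have hK := Ph_abs hC hD
  set K : ℝ := D + (N + 1) * C with hKdef
  have hfin : IsFiniteMeasure (mu.restrict Dom) :=
    ⟨by rw [restrict_apply_univ]; exact dom_finite⟩
  have hm : 0 < mu.real Dom := ENNReal.toReal_pos dom_pos dom_finite.ne
  have hmeas : ∀ g : Fin (N + 1) → G,
      AEStronglyMeasurable (fun x => Ph b h fun j => x * g j) (mu.restrict Dom) := fun g =>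
    (aesm_Ph hc g).mono_measure restrict_le_self
  have hint : ∀ g : Fin (N + 1) → G,
      Integrable (fun x => Ph b h fun j => x * g j) (mu.restrict Dom) := fun g =>
    Integrable.of_bound (hmeas g) K (Eventually.of_forall fun x => hK _)
  refine ⟨fun g => (mu.real Dom)⁻¹ * ∫ x in Dom, Ph b h (fun j => x * g j) ∂mu, ?_, ?_, ?_, ?_⟩
  · refine continuous_const.mul (continuous_iff_continuousAt.2 fun g₀ => ?_)
    refine continuousAt_of_dominated (bound := fun _ => K) (Eventually.of_forall hmeas)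
      (Eventually.of_forall fun g => Eventually.of_forall fun x => hK _) (integrable_const K) ?_
    have h1 : ∀ᵐ x ∂mu, ∀ j, x * g₀ j ∈ Gd := ae_all_iff.2 fun j => ae_mem_gd_mul (g₀ j)
    refine ae_restrict_of_ae (h1.mono fun x hx => ?_)
    exact continuousAt_Ph hc (continuous_pi fun j =>
      continuous_const.mul (continuous_apply j)).continuousAt hx
  · intro y g
    have h1 := integral_dom_mul (fun x => Ph b h fun j => x * g j) (fun γ x => by
      simp only [mul_assoc]
      exact Ph_mul hi hj γ fun j => x * g j) y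
    simp only [mul_assoc] at h1 ⊢
    rw [h1]
  · refine ⟨K, fun g => ?_⟩
    rw [abs_mul, abs_inv, abs_of_pos hm]
    have h1 : ‖∫ x in Dom, Ph b h (fun j => x * g j) ∂mu‖ ≤ K * mu.real Dom :=
      norm_setIntegral_le_of_norm_le_const dom_finite fun x _ => hK _
    rw [Real.norm_eq_abs] at h1
    rw [inv_mul_le_iff₀ hm, mul_comm]
    exact h1
  · intro y
    have h1 : ∀ x : G, b y = ∑ i : Fin (N + 2), (-1 : ℝ) ^ (i : ℕ) *
        Ph b h (fun j => x * y (i.succAbove j)) := by
      intro x
      rw [← Ph_coboundary hz hd fun j => x * y j]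
      exact (hi x y).symm
    have h2 : ∫ _ in Dom, b y ∂mu = ∑ i : Fin (N + 2), (-1 : ℝ) ^ (i : ℕ) *
        ∫ x in Dom, Ph b h (fun j => x * y (i.succAbove j)) ∂mu := by
      simp_rw [← integral_const_mul]
      rw [← integral_finsetSum]
      · exact integral_congr_ae (Eventually.of_forall fun x => h1 x)
      · intro i _
        exact (hint fun j => y (i.succAbove j)).const_mul _
    rw [setIntegral_const, smul_eq_mul] at h2
    have h3 : b y = (mu.real Dom)⁻¹ * (mu.real Dom * b y) := by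
      rw [← mul_assoc, inv_mul_cancel₀ hm.ne', one_mul]
    rw [h3, h2, Finset.mul_sum]
    refine Finset.sum_congr rfl fun i _ => ?_
    ring

end Lat

end Pool.Agent.Helper34.BC
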