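import Pool.Agent.Helper11.BC.Defs

/-!
# The prism operator on functions on lists
-/

open Finset Filter Topology
open scoped MatrixGroups

namespace Pool.Agent.Helper34.BC

namespace Lat

open Pool.Agent.Helper11.BC

theorem dl_nil {T : Type*} (Φ : List T → ℝ) : dl Φ [] = 0 := by simp [dl]

theorem dl_cons {T : Type*} (Φ : List T → ℝ) (x : T) (l : List T) :
    dl Φ (x :: l) = Φ l - dl (fun w => Φ (x :: w)) l := by
  rw [dl, List.length_cons, Finset.sum_range_succ']
  simp only [pow_zero, List.eraseIdx_cons_zero, one_smul, List.eraseIdx_cons_succ, pow_succ]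
  rw [dl, add_comm, sub_eq_add_neg, ← Finset.sum_neg_distrib]
  congr 1
  refine Finset.sum_congr rfl fun i _ => ?_
  simp

theorem dl_add {T : Type*} (Φ Ψ : List T → ℝ) (l : List T) :
    dl (fun w => Φ w + Ψ w) l = dl Φ l + dl Ψ l := by
  simp only [dl, smul_add, Finset.sum_add_distrib]

theorem dl_sub {T : Type*} (Φ Ψ : List T → ℝ) (l : List T) :
    dl (fun w => Φ w - Ψ w) l = dl Φ l - dl Ψ l := by
  simp only [dl, smul_sub, Finset.sum_sub_distrib]

theorem dl_congr {T : Type*} {Φ Ψ : List T → ℝ} {l : List T}
    (h : ∀ w : List T, w.length + 1 = l.length → Φ w = Ψ w) : dl Φ l = dl Ψ l := by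
  refine Finset.sum_congr rfl fun i hi => ?_
  rw [h]
  have hi' := Finset.mem_range.1 hi
  rw [List.length_eraseIdx_of_lt hi']
  omega

theorem dl_map {T : Type*} (u : T → T) (Φ : List T → ℝ) (l : List T) :
    dl Φ (l.map u) = dl (fun w => Φ (w.map u)) l := by
  rw [dl, List.length_map]
  refine Finset.sum_congr rfl fun i _ => ?_
  rw [List.eraseIdx_map]

/-- The prism operator. -/
noncomputable def pr {T : Type*} (u : T → T) : List T → (List T → ℝ) → ℝ
  | [], _ => 0
  | x :: l, b => b (u x :: x :: l) - pr u l fun w => b (u x :: w)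

theorem pr_cons {T : Type*} (u : T → T) (x : T) (l : List T) (b : List T → ℝ) :
    pr u (x :: l) b = b (u x :: x :: l) - pr u l fun w => b (u x :: w) := rfl

theorem pr_sub {T : Type*} (u : T → T) (l : List T) (b c : List T → ℝ) :
    pr u l (fun w => b w - c w) = pr u l b - pr u l c := by
  induction l generalizing b c with
  | nil => simp [pr]
  | cons x l ih =>
    rw [pr_cons, pr_cons, pr_cons, ih]
    ring

theorem pr_congr {T : Type*} {u : T → T} {l : List T} {b c : List T → ℝ}
    (h : ∀ w : List T, w.length = l.length + 1 → b w = c w) : pr u l b = pr u l c := by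
  induction l generalizing b c with
  | nil => rfl
  | cons x l ih =>
    rw [pr_cons, pr_cons, h _ (by simp), ih]
    intro w hw
    exact h _ (by simp [hw])

theorem pr_zero {T : Type*} (u : T → T) (l : List T) : pr u l (fun _ => 0) = 0 := by
  induction l with
  | nil => rfl
  | cons x l ih => rw [pr_cons, ih, sub_zero]

/-- The homotopy formula. -/
theorem pr_homotopy {T : Type*} (u : T → T) (l : List T) (b : List T → ℝ) :
    dl (fun w => pr u w b) l + pr u l (dl b) = b l - b (l.map u) := by
  induction l generalizing b with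
  | nil => simp [dl_nil, pr]
  | cons x l ih =>
    have h1 := ih fun w => b (u x :: w)
    have h2 : dl (fun w => pr u (x :: w) b) l =
        dl (fun w => b (u x :: x :: w)) l - dl (fun w => pr u w fun w' => b (u x :: w')) l := by
      rw [← dl_sub]
      rfl
    have h3 : pr u l (fun w => dl b (u x :: w)) =
        pr u l b - pr u l (dl fun w => b (u x :: w)) := by
      rw [← pr_sub]
      refine pr_congr fun w _ => ?_
      rw [dl_cons]
    rw [dl_cons, h2, pr_cons, h3, dl_cons, dl_cons, List.map_cons]
    linarith

theorem abs_pr_le {T : Type*} {u : T → T} {l : List T} {b : List T → ℝ} {C : ℝ}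
    (h : ∀ w : List T, w.length = l.length + 1 → |b w| ≤ C) : |pr u l b| ≤ l.length * C := by
  induction l generalizing b with
  | nil => simp [pr]
  | cons x l ih =>
    rw [pr_cons]
    have h1 := h (u x :: x :: l) (by simp)
    have h2 := ih (b := fun w => b (u x :: w)) fun w hw => h _ (by simp [hw])
    refine (abs_sub _ _).trans ?_
    rw [List.length_cons]
    push_cast
    linarith

theorem pr_map {T : Type*} {u a : T → T} (hu : ∀ x, u (a x) = a (u x)) (l : List T)
    (b : List T → ℝ) : pr u (l.map a) b = pr u l fun w => b (w.map a) := by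
  induction l generalizing b with
  | nil => rfl
  | cons x l ih =>
    rw [List.map_cons, pr_cons, pr_cons, ih, hu]
    simp only [List.map_cons]

/-! ### Continuity -/

/-- Joint continuity at a point, along all families of tuples. -/
def CA {X T : Type*} [TopologicalSpace X] [TopologicalSpace T] (x₀ : X) (b : X → List T → ℝ) :
    Prop :=
  ∀ (k : ℕ) (z : X → Fin k → T), ContinuousAt z x₀ →
    ContinuousAt (fun x => b x (List.ofFn (z x))) x₀

theorem continuousAt_pr {X T : Type*} [TopologicalSpace X] [TopologicalSpace T] {x₀ : X}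
    {b : X → List T → ℝ} (hb : CA x₀ b) {u : T → T} {k : ℕ} {y : X → Fin k → T}
    (hy : ContinuousAt y x₀) (hu : ∀ j, ContinuousAt u (y x₀ j)) :
    ContinuousAt (fun x => pr u (List.ofFn (y x)) (b x)) x₀ := by
  induction k generalizing b with
  | zero =>
    have : (fun x => pr u (List.ofFn (y x)) (b x)) = fun _ => (0 : ℝ) := by
      funext x
      rw [List.ofFn_zero]
      rfl
    rw [this]
    exact continuousAt_const
  | succ k ih =>
    have h0 : ContinuousAt (fun x => y x 0) x₀ := (continuous_apply 0).continuousAt.comp hy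
    have hu0 : ContinuousAt (fun x => u (y x 0)) x₀ :=
      ContinuousAt.comp (g := u) (f := fun x => y x 0) (hu 0) h0
    have ht : ContinuousAt (fun x => fun j : Fin k => y x j.succ) x₀ :=
      continuousAt_pi.2 fun j => (continuous_apply j.succ).continuousAt.comp hy
    have h1 : ContinuousAt (fun x => b x (u (y x 0) :: List.ofFn (y x))) x₀ := by
      have h2 := hb (k + 2) (fun x => Fin.cons (u (y x 0)) (y x)) (by
        refine continuousAt_pi.2 fun j => ?_
        refine Fin.cases ?_ (fun j => ?_) j
        · simpa using hu0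
        · simpa [Function.comp_def] using (continuous_apply j).continuousAt.comp hy)
      refine h2.congr (Eventually.of_forall fun x => ?_)
      simp [List.ofFn_succ]
    have hb' : CA x₀ fun x w => b x (u (y x 0) :: w) := by
      intro m z hz
      have h2 := hb (m + 1) (fun x => Fin.cons (u (y x 0)) (z x)) (by
        refine continuousAt_pi.2 fun j => ?_
        refine Fin.cases ?_ (fun j => ?_) j
        · simpa using hu0
        · simpa [Function.comp_def] using (continuous_apply j).continuousAt.comp hz)
      refine h2.congr (Eventually.of_forall fun x => ?_)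
      simp [List.ofFn_succ]
    have h2 := ih hb' ht fun j => hu j.succ
    refine (h1.sub h2).congr (Eventually.of_forall fun x => ?_)
    have h3 : List.ofFn (y x) = y x 0 :: List.ofFn fun j : Fin k => y x j.succ := List.ofFn_succ
    show b x (u (y x 0) :: List.ofFn (y x)) - pr u (List.ofFn fun j : Fin k => y x j.succ)
      (fun w => b x (u (y x 0) :: w)) = pr u (List.ofFn (y x)) (b x)
    rw [h3, pr_cons]

/-! ### Functions of tuples and functions on lists -/

/-- The function on lists of a function of tuples. -/
noncomputable def toL {T : Type*} {n : ℕ} (b : (Fin n → T) → ℝ) (l : List T) : ℝ :=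
  if h : l.length = n then b (fun i => l.get (i.cast h.symm)) else 0

theorem toL_ofFn {T : Type*} {n : ℕ} (b : (Fin n → T) → ℝ) (x : Fin n → T) :
    toL b (List.ofFn x) = b x := by
  rw [toL, dif_pos (List.length_ofFn (f := x))]
  congr 1
  funext i
  simp

theorem toL_of_ne {T : Type*} {n : ℕ} (b : (Fin n → T) → ℝ) {l : List T} (h : l.length ≠ n) :
    toL b l = 0 := by
  rw [toL, dif_neg h]

theorem eraseIdx_ofFn {T : Type*} {n : ℕ} (x : Fin (n + 1) → T) (i : Fin (n + 1)) :
    (List.ofFn x).eraseIdx i = List.ofFn fun j => x (i.succAbove j) := by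
  have hi : (i : ℕ) < (List.ofFn x).length := by rw [List.length_ofFn]; exact i.2
  refine List.ext_getElem ?_ fun j h1 h2 => ?_
  · rw [List.length_eraseIdx_of_lt hi, List.length_ofFn, List.length_ofFn]
    rfl
  · rw [List.getElem_eraseIdx]
    have hj : j < n := by rwa [List.length_ofFn] at h2
    split_ifs with h
    · rw [List.getElem_ofFn, List.getElem_ofFn]
      congr 1
      rw [Fin.succAbove_of_castSucc_lt]
      · rfl
      · exact h
    · rw [List.getElem_ofFn, List.getElem_ofFn]
      congr 1
      rw [Fin.succAbove_of_le_castSucc]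
      · rfl
      · exact not_lt.1 h

theorem dl_ofFn {T : Type*} {n : ℕ} (Φ : List T → ℝ) (x : Fin (n + 1) → T) :
    dl Φ (List.ofFn x) =
      ∑ i : Fin (n + 1), (-1 : ℝ) ^ (i : ℕ) * Φ (List.ofFn fun j => x (i.succAbove j)) := by
  rw [dl, List.length_ofFn, Finset.sum_range]
  refine Finset.sum_congr rfl fun i _ => ?_
  rw [eraseIdx_ofFn]
  rfl

theorem CA_toL {X T : Type*} [TopologicalSpace X] [TopologicalSpace T] (x₀ : X) {n : ℕ}
    {b : (Fin n → T) → ℝ} (hb : Continuous b) : CA x₀ fun _ => toL b := by
  intro k z hz
  by_cases hk : k = n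
  · subst hk
    simp only [toL_ofFn]
    exact hb.continuousAt.comp hz
  · have : (fun x => toL b (List.ofFn (z x))) = fun _ => (0 : ℝ) := by
      funext x
      exact toL_of_ne b (by rw [List.length_ofFn]; exact hk)
    rw [this]
    exact continuousAt_const

end Lat

end Pool.Agent.Helper34.BC
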